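import Mathlib

/-!
# Heat-bath updates on a product space: general lemmas

Auxiliary facts for MP_82263f_pr.
-/

set_option autoImplicit false
set_option linter.unusedSectionVars false

open Finset Function

namespace Pool.Agent.H857R3.Potts

variable {V K : Type*} [Fintype V] [DecidableEq V] [Fintype K] [DecidableEq K]

/-- The law `μ P_v`: the spin at `v` is resampled from its conditional law under `p` given the
other spins. -/
noncomputable def upd (p : (V → K) → ℝ) (v : V) (μ : (V → K) → ℝ) (σ : V → K) : ℝ :=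
  (∑ c, μ (update σ v c)) * (p σ / ∑ c, p (update σ v c))

/-- The action of `P_v` on functions. -/
noncomputable def pop (p : (V → K) → ℝ) (v : V) (h : (V → K) → ℝ) (σ : V → K) : ℝ :=
  (∑ c, h (update σ v c) * p (update σ v c)) / ∑ c, p (update σ v c)

theorem upd_density (p : (V → K) → ℝ) (v : V) (h : (V → K) → ℝ) :
    upd p v (fun σ => h σ * p σ) = fun σ => pop p v h σ * p σ := by
  funext σ
  simp only [upd, pop]
  ring

theorem sum_split (v : V) (F : (V → K) → ℝ) :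
    ∑ σ, F σ = ∑ x : K, ∑ ρ : ({j // j ≠ v} → K), F ((Equiv.funSplitAt v K).symm (x, ρ)) := by
  rw [← Fintype.sum_prod_type']
  exact (Equiv.sum_comp (Equiv.funSplitAt v K).symm F).symm

theorem update_split (v : V) (x : K) (ρ : {j // j ≠ v} → K) (c : K) :
    update ((Equiv.funSplitAt v K).symm (x, ρ)) v c = (Equiv.funSplitAt v K).symm (c, ρ) := by
  funext j
  by_cases h : j = v
  · subst h
    simp [Equiv.funSplitAt, Equiv.piSplitAt]
  · simp [Equiv.funSplitAt, Equiv.piSplitAt, h]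

theorem sum_swap (v : V) (F : (V → K) → (V → K) → ℝ) :
    ∑ σ, ∑ c, F σ (update σ v c) = ∑ σ, ∑ c, F (update σ v c) σ := by
  rw [sum_split v, sum_split v]
  simp_rw [update_split]
  have h1 : ∀ x : K, ∑ ρ : ({j // j ≠ v} → K), ∑ c, F ((Equiv.funSplitAt v K).symm (x, ρ))
      ((Equiv.funSplitAt v K).symm (c, ρ)) = ∑ c, ∑ ρ : ({j // j ≠ v} → K),
      F ((Equiv.funSplitAt v K).symm (x, ρ)) ((Equiv.funSplitAt v K).symm (c, ρ)) :=
    fun x => Finset.sum_comm
  have h2 : ∀ x : K, ∑ ρ : ({j // j ≠ v} → K), ∑ c, F ((Equiv.funSplitAt v K).symm (c, ρ))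
      ((Equiv.funSplitAt v K).symm (x, ρ)) = ∑ c, ∑ ρ : ({j // j ≠ v} → K),
      F ((Equiv.funSplitAt v K).symm (c, ρ)) ((Equiv.funSplitAt v K).symm (x, ρ)) :=
    fun x => Finset.sum_comm
  simp_rw [h1, h2]
  rw [Finset.sum_comm]

theorem sum_fiber (v : V) (F : (V → K) → ℝ) :
    ∑ σ, ∑ c, F (update σ v c) = (Fintype.card K : ℝ) * ∑ σ, F σ := by
  rw [sum_swap v (fun _ τ => F τ)]
  simp only [Finset.sum_const, Finset.card_univ, nsmul_eq_mul]
  rw [Finset.mul_sum]

theorem norm_update (p : (V → K) → ℝ) (v : V) (σ : V → K) (c : K) :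
    ∑ c', p (update (update σ v c) v c') = ∑ c', p (update σ v c') := by
  simp only [update_idem]

theorem pop_adjoint (p : (V → K) → ℝ) (v : V) (f g : (V → K) → ℝ) :
    ∑ σ, p σ * (pop p v f σ * g σ) = ∑ σ, p σ * (f σ * pop p v g σ) := by
  have h1 : ∀ σ, p σ * (pop p v f σ * g σ) = ∑ c, (fun τ τ' : V → K =>
      p τ * (f τ' * p τ') * g τ / ∑ c', p (update τ v c')) σ (update σ v c) := by
    intro σ
    simp only [pop]
    rw [← Finset.sum_div, ← Finset.sum_mul, ← Finset.mul_sum]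
    ring
  have h2 : ∀ σ, p σ * (f σ * pop p v g σ) = ∑ c, (fun τ τ' : V → K =>
      p τ * (f τ' * p τ') * g τ / ∑ c', p (update τ v c')) (update σ v c) σ := by
    intro σ
    simp only [pop, norm_update]
    rw [← Finset.sum_div]
    have e : ∑ c, p (update σ v c) * (f σ * p σ) * g (update σ v c) =
        p σ * f σ * ∑ c, g (update σ v c) * p (update σ v c) := by
      rw [Finset.mul_sum]
      refine Finset.sum_congr rfl fun c _ => by ring
    rw [e]
    ring
  rw [Finset.sum_congr rfl fun σ _ => h1 σ, Finset.sum_congr rfl fun σ _ => h2 σ]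
  exact sum_swap v (fun τ τ' : V → K => p τ * (f τ' * p τ') * g τ / ∑ c', p (update τ v c'))

theorem upd_mass {p : (V → K) → ℝ} (hp : ∀ σ, 0 < p σ) (v : V) (μ : (V → K) → ℝ) :
    ∑ σ, upd p v μ σ = ∑ σ, μ σ := by
  have h1 : ∀ σ, upd p v μ σ = ∑ c, (fun τ τ' : V → K =>
      μ τ' * (p τ / ∑ c', p (update τ v c'))) σ (update σ v c) := by
    intro σ
    simp only [upd]
    rw [Finset.sum_mul]
  simp_rw [h1]
  rw [sum_swap v (fun τ τ' : V → K => μ τ' * (p τ / ∑ c', p (update τ v c')))]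
  refine Finset.sum_congr rfl fun σ _ => ?_
  simp only [norm_update]
  rw [← Finset.mul_sum, ← Finset.sum_div]
  by_cases hK : Nonempty K
  · have : 0 < ∑ c', p (update σ v c') := Finset.sum_pos (fun c _ => hp _) Finset.univ_nonempty
    rw [div_self this.ne', mul_one]
  · exact (hK ⟨σ v⟩).elim

/-- The density `h` is unchanged by `P_v` if it does not depend on the spin at `v`. -/
theorem pop_of_indep {p : (V → K) → ℝ} (hp : ∀ σ, 0 < p σ) (v : V) (h : (V → K) → ℝ)
    (hh : ∀ σ c, h (update σ v c) = h σ) : pop p v h = h := by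
  funext σ
  simp only [pop, hh]
  rw [← Finset.mul_sum]
  by_cases hK : Nonempty K
  · have : 0 < ∑ c', p (update σ v c') := Finset.sum_pos (fun c _ => hp _) Finset.univ_nonempty
    rw [mul_div_assoc, div_self this.ne', mul_one]
  · exact (hK ⟨σ v⟩).elim

/-- Total variation distance `max_A |μ(A) - ν(A)|`. -/
noncomputable def tv {Ω : Type*} (μ ν : Ω → ℝ) : ℝ :=
  ⨆ A : Finset Ω, |∑ σ ∈ A, μ σ - ∑ σ ∈ A, ν σ|

theorem tv_lt {Ω : Type*} [Fintype Ω] [DecidableEq Ω] {μ ν p : Ω → ℝ}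
    (hmass : ∑ σ, ν σ = ∑ σ, p σ) (A : Finset Ω) (hA : ∀ σ ∈ A, p σ ≤ ν σ)
    (hA' : ∀ σ, σ ∉ A → ν σ ≤ p σ) (hlt : ∑ σ ∈ A, ν σ < ∑ σ ∈ A, μ σ) :
    tv ν p < tv μ p := by
  have hB : ∀ B : Finset Ω, ∑ σ ∈ B, (ν σ - p σ) ≤ ∑ σ ∈ A, (ν σ - p σ) := by
    intro B
    calc ∑ σ ∈ B, (ν σ - p σ) = ∑ σ ∈ B.filter (· ∈ A), (ν σ - p σ) +
          ∑ σ ∈ B.filter (fun σ => σ ∉ A), (ν σ - p σ) :=
          (Finset.sum_filter_add_sum_filter_not B (· ∈ A) _).symm
      _ ≤ ∑ σ ∈ B.filter (· ∈ A), (ν σ - p σ) + 0 := by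
          gcongr
          refine Finset.sum_nonpos fun σ hσ => ?_
          have := hA' σ (Finset.mem_filter.mp hσ).2
          linarith
      _ ≤ ∑ σ ∈ A, (ν σ - p σ) := by
          rw [add_zero]
          refine Finset.sum_le_sum_of_subset_of_nonneg ?_ ?_
          · intro σ hσ
            exact (Finset.mem_filter.mp hσ).2
          · intro σ hσ _
            have := hA σ hσ
            linarith
  have h1 : tv ν p ≤ ∑ σ ∈ A, (ν σ - p σ) := by
    refine ciSup_le fun B => ?_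
    rw [← Finset.sum_sub_distrib, abs_le]
    constructor
    · have h2 := hB Bᶜ
      have h3 : ∑ σ ∈ B, (ν σ - p σ) + ∑ σ ∈ Bᶜ, (ν σ - p σ) = 0 := by
        rw [Finset.sum_add_sum_compl, Finset.sum_sub_distrib, hmass, sub_self]
      linarith
    · exact hB B
  have h2 : |∑ σ ∈ A, μ σ - ∑ σ ∈ A, p σ| ≤ tv μ p :=
    le_ciSup (f := fun A : Finset Ω => |∑ σ ∈ A, μ σ - ∑ σ ∈ A, p σ|)
      (Set.finite_range _).bddAbove A
  have h3 := le_abs_self (∑ σ ∈ A, μ σ - ∑ σ ∈ A, p σ)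
  rw [Finset.sum_sub_distrib] at h1
  linarith

end Pool.Agent.H857R3.Potts
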