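import Mathlib
import Pool.Agent.H857R3.Potts.Basic

/-!
# Estimates for the densities

`m X x y` is `X` if the colours `x`, `y` agree and `1` otherwise (`X = e^β`).
-/

set_option autoImplicit false
set_option linter.unusedSectionVars false
set_option linter.unusedVariables false

open Finset

namespace Pool.Agent.H857R3.Potts

variable {q : ℕ}

/-- The factor of an edge. -/
def m (X : ℝ) (x y : Fin q) : ℝ := if x = y then X else 1

variable {X : ℝ} {g : Fin q}

theorem m_comm (x y : Fin q) : m X x y = m X y x := by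
  unfold m
  simp only [eq_comm]

@[simp] theorem m_self (x : Fin q) : m X x x = X := by simp [m]

theorem m_ne {x y : Fin q} (h : x ≠ y) : m X x y = 1 := by simp [m, h]

theorem m_ne' {x y : Fin q} (h : y ≠ x) : m X x y = 1 := m_ne (Ne.symm h)

theorem m_pos (hX : 0 < X) (x y : Fin q) : 0 < m X x y := by
  unfold m; split_ifs <;> linarith

theorem one_le_m (hX : 1 ≤ X) (x y : Fin q) : 1 ≤ m X x y := by
  unfold m; split_ifs <;> linarith

theorem m_le (hX : 1 ≤ X) (x y : Fin q) : m X x y ≤ X := by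
  unfold m; split_ifs <;> linarith

theorem sum_m (x : Fin q) (F : Fin q → ℝ) :
    ∑ c, m X x c * F c = ∑ c, F c + (X - 1) * F x := by
  have h : ∀ c, m X x c * F c = F c + (if x = c then (X - 1) * F c else 0) := by
    intro c
    unfold m
    split_ifs <;> ring
  simp_rw [h, Finset.sum_add_distrib, Finset.sum_ite_eq, Finset.mem_univ, if_true]

theorem sum_one : ∑ _c : Fin q, (1 : ℝ) = q := by simp

theorem sum_m1 (x : Fin q) : ∑ c, m X x c = q + (X - 1) := by
  have h := sum_m (X := X) x (fun _ => 1)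
  simp only [mul_one, sum_one] at h
  exact h

/-- Normalizations. -/
def Z2 (X : ℝ) (x y : Fin q) : ℝ := ∑ c, m X x c * m X y c

def Z3 (X : ℝ) (x y z : Fin q) : ℝ := ∑ c, m X x c * m X y c * m X z c

def Z4 (X : ℝ) (x y z t : Fin q) : ℝ := ∑ c, m X x c * m X y c * m X z c * m X t c

theorem Z2_eq (x y : Fin q) : Z2 X x y = q + (X - 1) + (X - 1) * m X y x := by
  unfold Z2
  rw [sum_m x (fun c => m X y c), sum_m1]

theorem Z3_eq (x y z : Fin q) : Z3 X x y z = Z2 X y z + (X - 1) * (m X y x * m X z x) := by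
  unfold Z3 Z2
  simp_rw [mul_assoc]
  rw [sum_m x (fun c => m X y c * m X z c)]

theorem Z4_eq (x y z t : Fin q) :
    Z4 X x y z t = Z3 X y z t + (X - 1) * (m X y x * m X z x * m X t x) := by
  unfold Z4 Z3
  simp_rw [mul_assoc]
  rw [sum_m x (fun c => m X y c * (m X z c * m X t c))]

theorem Z3_gg (g y : Fin q) : Z3 X g g y = q + X - 1 + (X ^ 2 - 1) * m X y g := by
  rw [Z3_eq, Z2_eq, m_self]
  ring

theorem Z4_gg (x g y : Fin q) : Z4 X x g g y =
    q + X - 1 + (X ^ 2 - 1) * m X y g + (X - 1) * (m X g x * m X g x * m X y x) := by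
  rw [Z4_eq, Z3_gg]

/-- Density after the updates `4, 1`. -/
noncomputable def B (X : ℝ) (g y : Fin q) : ℝ := X ^ 2 * m X g y / Z3 X g g y

/-- Density after the updates `4, 1, 0`. -/
noncomputable def C (X : ℝ) (g x y : Fin q) : ℝ :=
  B X g y * (m X x g * X ^ 2 * m X y g) / Z4 X x g g y

/-- Density after the updates `4, 1, 0, 4`. -/
noncomputable def D (X : ℝ) (g s x : Fin q) : ℝ :=
  (∑ t, m X s t * m X x t * C X g x t) / Z2 X s x

/-- Density after the updates `4, 1, 0, 4, 0`. -/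
noncomputable def A (X : ℝ) (g x y : Fin q) : ℝ :=
  (∑ t, m X x t * m X g t * m X g t * m X y t * D X g t x) / Z4 X x g g y

/-- Density after the updates `4, 1, 0, 4, 0, 4`. -/
noncomputable def E (X : ℝ) (g s x : Fin q) : ℝ :=
  (∑ t, m X s t * m X x t * A X g x t) / Z2 X s x

/-- The probability that an update at `2` gives green. -/
noncomputable def R (X : ℝ) (g s x : Fin q) : ℝ := m X s g * m X x g * X / Z3 X s x g

/-- The standing assumptions on the number of colours and on `X = e^β`. -/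
structure Hyp (q : ℕ) (X : ℝ) : Prop where
  hq : 3 ≤ q
  hX : 1000 * (q : ℝ) ^ 4 ≤ X

namespace Hyp

variable (h : Hyp q X)
include h

theorem Q3 : (3 : ℝ) ≤ q := by exact_mod_cast h.hq

theorem XQ : 27000 * (q : ℝ) ≤ X := by
  have h1 := h.Q3
  have h2 := h.hX
  have h3 : (27 : ℝ) ≤ (q : ℝ) ^ 3 := by
    calc (27 : ℝ) = 3 ^ 3 := by norm_num
      _ ≤ (q : ℝ) ^ 3 := pow_le_pow_left₀ (by norm_num) h1 3
  nlinarith

theorem XQ2 : 9000 * (q : ℝ) ^ 2 ≤ X := by
  have h1 := h.Q3
  have h2 := h.hX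
  have h3 : (9 : ℝ) ≤ (q : ℝ) ^ 2 := by nlinarith
  nlinarith [sq_nonneg ((q : ℝ) ^ 2)]

theorem X1 : 81000 ≤ X := by
  have h1 := h.Q3
  have h2 := h.XQ
  linarith

theorem Xpos : 0 < X := by have := h.X1; linarith

theorem Xone : 1 ≤ X := by have := h.X1; linarith

end Hyp

variable (h : Hyp q X)
include h

theorem mp (x y : Fin q) : 0 < m X x y := m_pos h.Xpos x y

theorem m1 (x y : Fin q) : 1 ≤ m X x y := one_le_m h.Xone x y

theorem mX (x y : Fin q) : m X x y ≤ X := m_le h.Xone x y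

theorem Z2_pos (x y : Fin q) : 0 < Z2 X x y := by
  have := h.Q3
  have h1 := h.Xone
  rw [Z2_eq]
  have := mul_nonneg (by linarith : (0 : ℝ) ≤ X - 1) (mp h y x).le
  linarith

theorem Z3_pos (x y z : Fin q) : 0 < Z3 X x y z := by
  rw [Z3_eq]
  have := Z2_pos h y z
  have := mul_nonneg (by linarith [h.Xone] : (0 : ℝ) ≤ X - 1)
    (mul_pos (mp h y x) (mp h z x)).le
  linarith

theorem Z4_pos (x y z t : Fin q) : 0 < Z4 X x y z t := by
  rw [Z4_eq]
  have := Z3_pos h y z t
  have := mul_nonneg (by linarith [h.Xone] : (0 : ℝ) ≤ X - 1)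
    (mul_pos (mul_pos (mp h y x) (mp h z x)) (mp h t x)).le
  linarith

theorem B_pos (y : Fin q) : 0 < B X g y := by
  have := h.Xpos
  have := mp h g y
  have := Z3_pos h g g y
  unfold B
  positivity

theorem B_le (y : Fin q) : B X g y ≤ 1 := by
  unfold B
  rw [div_le_one (Z3_pos h g g y), Z3_gg, m_comm g y]
  have := mX h y g
  have := h.Q3
  nlinarith

theorem B_ge (y : Fin q) : 0.999 ≤ B X g y := by
  unfold B
  rw [le_div_iff₀ (Z3_pos h g g y), Z3_gg, m_comm g y]
  have h1 := m1 h y g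
  have h2 := h.XQ
  have h3 := h.X1
  have h4 := h.Q3
  nlinarith [mul_nonneg (by linarith : (0 : ℝ) ≤ m X y g - 1) (sq_nonneg X)]

theorem num_le (x y : Fin q) : m X x g * X ^ 2 * m X y g ≤ Z4 X x g g y := by
  unfold Z4
  have h1 := Finset.single_le_sum (f := fun c => m X x c * m X g c * m X g c * m X y c)
    (s := Finset.univ) (fun c _ => (mul_pos (mul_pos (mul_pos (mp h x c) (mp h g c)) (mp h g c))
      (mp h y c)).le) (Finset.mem_univ g)
  simp only [m_self] at h1
  calc m X x g * X ^ 2 * m X y g = m X x g * X * X * m X y g := by ring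
    _ ≤ _ := h1

theorem C_nonneg (x y : Fin q) : 0 ≤ C X g x y := by
  unfold C
  have := (B_pos h (g := g) y).le
  have := (Z4_pos h x g g y).le
  have := (mp h x g).le
  have := (mp h y g).le
  positivity

theorem C_le (x y : Fin q) : C X g x y ≤ 1 := by
  unfold C
  rw [div_le_one (Z4_pos h x g g y)]
  have h1 := num_le h (g := g) x y
  have h2 := B_le h (g := g) y
  have h3 : 0 ≤ m X x g * X ^ 2 * m X y g := by
    have := (mp h x g).le
    have := (mp h y g).le
    positivity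
  nlinarith [(B_pos h (g := g) y).le]

/-- Off the diagonal the density is close to one. -/
theorem C_ge {x y : Fin q} (hxy : x ≠ y ∨ x = g) : 0.99 ≤ C X g x y := by
  unfold C
  rw [le_div_iff₀ (Z4_pos h x g g y), Z4_gg]
  have hB := B_ge h (g := g) y
  have h2 := h.XQ
  have h3 := h.X1
  have h4 := h.Q3
  have hX2 : 81000 * X ≤ X ^ 2 := by nlinarith
  have hX3 : 81000 * X ^ 2 ≤ X ^ 3 := by nlinarith [sq_nonneg X]
  have h5 : 0 ≤ m X x g * X ^ 2 * m X y g := by
    have := (mp h x g).le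
    have := (mp h y g).le
    positivity
  have h6 : 0.999 * (m X x g * X ^ 2 * m X y g) ≤ B X g y * (m X x g * X ^ 2 * m X y g) :=
    mul_le_mul_of_nonneg_right hB h5
  refine le_trans ?_ h6
  by_cases hx : x = g
  · subst hx
    simp only [m_self]
    have h7 := m1 h y x
    have h8 : X ^ 3 ≤ X ^ 3 * m X y x := by nlinarith [pow_pos h.Xpos 3]
    nlinarith
  · have hxy' : x ≠ y := hxy.resolve_right hx
    rw [m_ne hx, m_ne' hx, m_ne' hxy']
    have h7 := m1 h y g
    have h8 : X ^ 2 ≤ X ^ 2 * m X y g := by nlinarith [pow_pos h.Xpos 2]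
    nlinarith

theorem C_diag {x : Fin q} (hx : x ≠ g) : 0.49 ≤ C X g x x ∧ C X g x x ≤ 1 / 2 := by
  have hB := B_ge h (g := g) x
  have hB' := B_le h (g := g) x
  have h2 := h.XQ
  have h3 := h.X1
  have h4 := h.Q3
  have hX2 : 81000 * X ≤ X ^ 2 := by nlinarith
  unfold C
  have hZ := Z4_pos h x g g x
  rw [le_div_iff₀ hZ, div_le_iff₀ hZ, Z4_gg]
  rw [m_ne hx, m_ne' hx, m_self]
  constructor
  · nlinarith
  · nlinarith

theorem C_min (x y : Fin q) : 0.49 ≤ C X g x y := by
  by_cases hx : x = g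
  · have := C_ge h (g := g) (x := x) (y := y) (Or.inr hx)
    linarith
  · by_cases hxy : x = y
    · subst hxy
      exact (C_diag h hx).1
    · have := C_ge h (g := g) (x := x) (y := y) (Or.inl hxy)
      linarith

theorem sum_bounds {F : Fin q → ℝ} {lo hi : ℝ} (h1 : ∀ t, lo ≤ F t) (h2 : ∀ t, F t ≤ hi) :
    q * lo ≤ ∑ t, F t ∧ ∑ t, F t ≤ q * hi := by
  constructor
  · calc q * lo = ∑ _t : Fin q, lo := by simp
      _ ≤ ∑ t, F t := Finset.sum_le_sum fun t _ => h1 t
  · calc ∑ t, F t ≤ ∑ _t : Fin q, hi := Finset.sum_le_sum fun t _ => h2 t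
      _ = q * hi := by simp

theorem D_eq (s x : Fin q) : D X g s x * Z2 X s x =
    ∑ t, C X g x t + (X - 1) * C X g x x + (X - 1) * (m X x s * C X g x s) := by
  unfold D
  rw [div_mul_cancel₀ _ (Z2_pos h s x).ne']
  simp_rw [mul_assoc]
  rw [sum_m s (fun t => m X x t * C X g x t), sum_m x (fun t => C X g x t)]

theorem D_bounds {s x : Fin q} {lo hi : ℝ} (h1 : ∀ t, lo ≤ C X g x t)
    (h2 : ∀ t, C X g x t ≤ hi) : lo ≤ D X g s x ∧ D X g s x ≤ hi := by
  have hZ := Z2_pos h s x
  have e := D_eq h (g := g) s x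
  obtain ⟨s1, s2⟩ := sum_bounds h h1 h2
  have hX1 : 0 ≤ X - 1 := by linarith [h.Xone]
  have hm := (mp h x s).le
  have a1 := mul_le_mul_of_nonneg_left (h1 x) hX1
  have a2 := mul_le_mul_of_nonneg_left (h2 x) hX1
  have b1 := mul_le_mul_of_nonneg_left (mul_le_mul_of_nonneg_left (h1 s) hm) hX1
  have b2 := mul_le_mul_of_nonneg_left (mul_le_mul_of_nonneg_left (h2 s) hm) hX1
  have eZ := Z2_eq (X := X) s x
  constructor
  · refine le_of_mul_le_mul_right ?_ hZ
    rw [e, eZ]
    nlinarith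
  · refine le_of_mul_le_mul_right ?_ hZ
    rw [e, eZ]
    nlinarith

theorem D_nonneg (s x : Fin q) : 0.49 ≤ D X g s x :=
  (D_bounds h (fun t => C_min h x t) (fun t => C_le h x t)).1

theorem D_le (s x : Fin q) : D X g s x ≤ 1 :=
  (D_bounds h (fun t => C_min h x t) (fun t => C_le h x t)).2

theorem D_green (s : Fin q) : 0.99 ≤ D X g s g :=
  (D_bounds h (fun t => C_ge h (Or.inr rfl)) (fun t => C_le h g t)).1

theorem D_off {s x : Fin q} (hs : s ≠ x) (hx : x ≠ g) :
    0.73 ≤ D X g s x ∧ D X g s x ≤ 0.76 := by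
  have hZ := Z2_pos h s x
  have e := D_eq h (g := g) s x
  have eZ := Z2_eq (X := X) s x
  rw [m_ne' hs] at e eZ
  obtain ⟨s1, s2⟩ := sum_bounds h (fun t => C_nonneg h (g := g) x t) (fun t => C_le h x t)
  obtain ⟨c1, c2⟩ := C_diag h hx
  have c3 := C_ge h (g := g) (x := x) (y := s) (Or.inl hs.symm)
  have c4 := C_le h (g := g) x s
  have h2 := h.XQ
  have h3 := h.X1
  have h4 := h.Q3
  constructor
  · refine le_of_mul_le_mul_right ?_ hZ
    rw [e, eZ]
    nlinarith
  · refine le_of_mul_le_mul_right ?_ hZ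
    rw [e, eZ]
    nlinarith

theorem D_diag {x : Fin q} (hx : x ≠ g) : D X g x x ≤ 0.51 := by
  have hZ := Z2_pos h x x
  have e := D_eq h (g := g) x x
  have eZ := Z2_eq (X := X) x x
  rw [m_self] at e eZ
  obtain ⟨s1, s2⟩ := sum_bounds h (fun t => C_nonneg h (g := g) x t) (fun t => C_le h x t)
  obtain ⟨c1, c2⟩ := C_diag h hx
  have h2 := h.XQ
  have h3 := h.X1
  have h4 := h.Q3
  have hX2 : 81000 * X ≤ X ^ 2 := by nlinarith
  refine le_of_mul_le_mul_right ?_ hZ
  rw [e, eZ]
  nlinarith [mul_nonneg (sub_nonneg.mpr c2) (by nlinarith : (0 : ℝ) ≤ X ^ 2 - 1)]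

theorem A_eq (x y : Fin q) : A X g x y * Z4 X x g g y =
    ∑ t, D X g t x + (X - 1) * D X g y x + (X ^ 2 - 1) * (m X y g * D X g g x) +
      (X - 1) * (m X g x * m X g x * m X y x * D X g x x) := by
  unfold A
  rw [div_mul_cancel₀ _ (Z4_pos h x g g y).ne']
  simp_rw [mul_assoc]
  rw [sum_m x (fun t => m X g t * (m X g t * (m X y t * D X g t x))),
    sum_m g (fun t => m X g t * (m X y t * D X g t x)),
    sum_m g (fun t => m X y t * D X g t x), sum_m y (fun t => D X g t x), m_self]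
  ring

theorem A_bounds {x y : Fin q} {lo hi : ℝ} (h1 : ∀ t, lo ≤ D X g t x)
    (h2 : ∀ t, D X g t x ≤ hi) : lo ≤ A X g x y ∧ A X g x y ≤ hi := by
  have hZ := Z4_pos h x g g y
  have e := A_eq h (g := g) x y
  have eZ := Z4_gg (X := X) x g y
  obtain ⟨s1, s2⟩ := sum_bounds h h1 h2
  have hX1 : 0 ≤ X - 1 := by linarith [h.Xone]
  have hX2 : 0 ≤ X ^ 2 - 1 := by nlinarith [h.Xone]
  have hm := (mp h y g).le
  have hm' : 0 ≤ m X g x * m X g x * m X y x :=
    (mul_pos (mul_pos (mp h g x) (mp h g x)) (mp h y x)).le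
  have a1 := mul_le_mul_of_nonneg_left (h1 y) hX1
  have a2 := mul_le_mul_of_nonneg_left (h2 y) hX1
  have b1 := mul_le_mul_of_nonneg_left (mul_le_mul_of_nonneg_left (h1 g) hm) hX2
  have b2 := mul_le_mul_of_nonneg_left (mul_le_mul_of_nonneg_left (h2 g) hm) hX2
  have c1 := mul_le_mul_of_nonneg_left (mul_le_mul_of_nonneg_left (h1 x) hm') hX1
  have c2 := mul_le_mul_of_nonneg_left (mul_le_mul_of_nonneg_left (h2 x) hm') hX1
  constructor
  · refine le_of_mul_le_mul_right ?_ hZ
    rw [e, eZ]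
    nlinarith
  · refine le_of_mul_le_mul_right ?_ hZ
    rw [e, eZ]
    nlinarith

theorem A_nonneg (x y : Fin q) : 0 ≤ A X g x y :=
  le_trans (by norm_num) (A_bounds h (y := y) (fun t => D_nonneg h t x) (fun t => D_le h t x)).1

theorem A_le (x y : Fin q) : A X g x y ≤ 1 :=
  (A_bounds h (y := y) (fun t => D_nonneg h t x) (fun t => D_le h t x)).2

/-- The density after the updates `4, 1, 0, 4, 0` is at least `0.6`. -/
theorem A_ge (x y : Fin q) : 0.6 ≤ A X g x y := by
  by_cases hx : x = g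
  · subst hx
    exact le_trans (by norm_num)
      (A_bounds h (y := y) (fun t => D_green h t) (fun t => D_le h t x)).1
  have hZ := Z4_pos h x g g y
  have e := A_eq h (g := g) x y
  have eZ := Z4_gg (X := X) x g y
  rw [m_ne' hx] at e eZ
  obtain ⟨s1, s2⟩ := sum_bounds h (fun t => D_nonneg h (g := g) t x) (fun t => D_le h t x)
  have d1 := D_nonneg h (g := g) y x
  have d2 := (D_off h (Ne.symm hx) hx).1
  have d3 := D_nonneg h (g := g) x x
  have h2 := h.XQ
  have h3 := h.X1
  have h4 := h.Q3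
  have hX2 : 81000 * X ≤ X ^ 2 := by nlinarith
  refine le_of_mul_le_mul_right ?_ hZ
  rw [e, eZ]
  by_cases hyg : y = g
  · subst hyg
    rw [m_self, m_ne' hx]
    have hX3 : 81000 * X ^ 2 ≤ X ^ 3 := by nlinarith [sq_nonneg X]
    nlinarith [mul_le_mul_of_nonneg_left d2 (by nlinarith : (0 : ℝ) ≤ (X ^ 2 - 1) * X),
      mul_le_mul_of_nonneg_left d3 (by linarith : (0 : ℝ) ≤ X - 1),
      mul_le_mul_of_nonneg_left d1 (by linarith : (0 : ℝ) ≤ X - 1)]
  · by_cases hyx : y = x
    · subst hyx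
      rw [m_ne hyg, m_self]
      nlinarith [mul_le_mul_of_nonneg_left d2 (by nlinarith : (0 : ℝ) ≤ X ^ 2 - 1),
        mul_le_mul_of_nonneg_left d3 (by nlinarith : (0 : ℝ) ≤ (X - 1) * X),
        mul_le_mul_of_nonneg_left d1 (by linarith : (0 : ℝ) ≤ X - 1)]
    · rw [m_ne hyg, m_ne hyx]
      nlinarith [mul_le_mul_of_nonneg_left d2 (by nlinarith : (0 : ℝ) ≤ X ^ 2 - 1),
        mul_le_mul_of_nonneg_left d3 (by linarith : (0 : ℝ) ≤ X - 1),
        mul_le_mul_of_nonneg_left d1 (by linarith : (0 : ℝ) ≤ X - 1)]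

/-- The failure of monotonicity: at a non-green colour `l` of vertex `1`, the density is larger
when vertex `4` has a third colour `k` than when it has the colour `l`. -/
theorem A_gap {k l : Fin q} (hk : k ≠ g) (hl : l ≠ g) (hkl : k ≠ l) :
    1 / 16 ≤ A X g l k - A X g l l := by
  have h2 := h.XQ
  have h3 := h.X1
  have h4 := h.Q3
  have hX2 : 81000 * X ≤ X ^ 2 := by nlinarith
  obtain ⟨s1, s2⟩ := sum_bounds h (fun t => D_nonneg h (g := g) t l) (fun t => D_le h t l)
  obtain ⟨d1, d1'⟩ := D_off h (s := g) (Ne.symm hl) hl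
  have d2 := D_nonneg h (g := g) l l
  have d2' := D_diag h hl
  have d3 := (D_off h hkl hl).1
  have lower : 0.72 ≤ A X g l k := by
    have hZ := Z4_pos h l g g k
    have e := A_eq h (g := g) l k
    have eZ := Z4_gg (X := X) l g k
    rw [m_ne' hl, m_ne hk, m_ne hkl] at e eZ
    refine le_of_mul_le_mul_right ?_ hZ
    rw [e, eZ]
    nlinarith [mul_le_mul_of_nonneg_left d1 (by nlinarith : (0 : ℝ) ≤ X ^ 2 - 1),
      mul_le_mul_of_nonneg_left d2 (by linarith : (0 : ℝ) ≤ X - 1),
      mul_le_mul_of_nonneg_left d3 (by linarith : (0 : ℝ) ≤ X - 1)]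
  have upper : A X g l l ≤ 0.64 := by
    have hZ := Z4_pos h l g g l
    have e := A_eq h (g := g) l l
    have eZ := Z4_gg (X := X) l g l
    rw [m_ne' hl, m_ne hl, m_self] at e eZ
    refine le_of_mul_le_mul_right ?_ hZ
    rw [e, eZ]
    nlinarith [mul_le_mul_of_nonneg_left d1' (by nlinarith : (0 : ℝ) ≤ X ^ 2 - 1),
      mul_le_mul_of_nonneg_left d2' (by nlinarith : (0 : ℝ) ≤ (X - 1) * X),
      mul_le_mul_of_nonneg_left d2' (by linarith : (0 : ℝ) ≤ X - 1)]
  linarith

/-- When vertex `1` is green the density hardly depends on the colour of vertex `4`. -/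
theorem A_close (y : Fin q) : |A X g g y - D X g g g| ≤ 2 / X ^ 2 := by
  have hZ := Z4_pos h g g g y
  have e := A_eq h (g := g) g y
  have eZ := Z4_gg (X := X) g g y
  rw [m_self] at e eZ
  have h2 := h.XQ
  have h3 := h.X1
  have h4 := h.Q3
  have hm := m1 h y g
  have hZX : X ^ 3 ≤ Z4 X g g g y := by
    rw [eZ]
    nlinarith [mul_le_mul_of_nonneg_left hm (by nlinarith [pow_pos h.Xpos 3] :
      (0 : ℝ) ≤ X ^ 3 - 1)]
  have dd : ∀ t, |D X g t g - D X g g g| ≤ 0.01 := by
    intro t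
    have := D_green h (g := g) t
    have := D_le h (g := g) t g
    have := D_green h (g := g) g
    have := D_le h (g := g) g g
    rw [abs_le]
    constructor <;> linarith
  have key : (A X g g y - D X g g g) * Z4 X g g g y =
      ∑ t, (D X g t g - D X g g g) + (X - 1) * (D X g y g - D X g g g) := by
    rw [sub_mul, e, eZ, Finset.sum_sub_distrib]
    simp only [Finset.sum_const, Finset.card_univ, Fintype.card_fin, nsmul_eq_mul]
    ring
  have hbound : |(A X g g y - D X g g g) * Z4 X g g g y| ≤ 2 * X := by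
    rw [key]
    calc |∑ t, (D X g t g - D X g g g) + (X - 1) * (D X g y g - D X g g g)|
        ≤ |∑ t, (D X g t g - D X g g g)| + |(X - 1) * (D X g y g - D X g g g)| := abs_add_le _ _
      _ ≤ ∑ t, |D X g t g - D X g g g| + (X - 1) * |D X g y g - D X g g g| := by
          gcongr
          · exact Finset.abs_sum_le_sum_abs _ _
          · rw [abs_mul, abs_of_nonneg (by linarith : (0 : ℝ) ≤ X - 1)]
      _ ≤ ∑ _t : Fin q, (0.01 : ℝ) + (X - 1) * 0.01 := by
          gcongr with t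
          · exact dd t
          · linarith
          · exact dd y
      _ ≤ 2 * X := by
          simp only [Finset.sum_const, Finset.card_univ, Fintype.card_fin, nsmul_eq_mul]
          linarith
  rw [abs_mul, abs_of_pos hZ] at hbound
  rw [le_div_iff₀ (by have := h.Xpos; positivity)]
  have h5 : |A X g g y - D X g g g| * X ^ 3 ≤ 2 * X :=
    le_trans (mul_le_mul_of_nonneg_left hZX (abs_nonneg _)) hbound
  have h6 : |A X g g y - D X g g g| * X ^ 2 * X ≤ 2 * X := by
    calc |A X g g y - D X g g g| * X ^ 2 * X = |A X g g y - D X g g g| * X ^ 3 := by ring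
      _ ≤ 2 * X := h5
  exact le_of_mul_le_mul_right h6 h.Xpos

end Pool.Agent.H857R3.Potts
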