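import Mathlib
import Pool.Agent.H857R3.Potts.Est

/-!
# Estimates for the densities, second part
-/

set_option autoImplicit false
set_option linter.unusedSectionVars false
set_option linter.unusedVariables false

open Finset

namespace Pool.Agent.H857R3.Potts

variable {q : ℕ} {X : ℝ} {g : Fin q}

/-- The conditional probability that vertex `2` does not get the colour `k` of vertex `0`, when
vertex `1` has colour `t` and vertex `3` is green. -/
noncomputable def psi (X : ℝ) (g k t : Fin q) : ℝ :=
  (Z3 X k t g - X * m X k t) / Z3 X k t g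

/-- The increment produced by the extra update, for the colour `k` of vertex `0`. -/
noncomputable def T (X : ℝ) (g k : Fin q) : ℝ :=
  ∑ t, m X k t ^ 2 * m X t g * psi X g k t * (A X g t k - E X g k t)

/-- Density after the updates `4, 1, 0, 4, 0, 2, 1`. -/
noncomputable def G (X : ℝ) (g s x y : Fin q) : ℝ :=
  (∑ t, m X s t * m X x t * m X y t * (R X g s t * A X g t y)) / Z3 X s x y

variable (h : Hyp q X)
include h

theorem gap_eq (t k : Fin q) : (A X g t k - E X g k t) * Z2 X k t =
    ∑ u, (A X g t k - A X g t u) + (X - 1) * (A X g t k - A X g t t) := by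
  have e : E X g k t * Z2 X k t =
      ∑ u, A X g t u + (X - 1) * A X g t t + (X - 1) * (m X t k * A X g t k) := by
    unfold E
    rw [div_mul_cancel₀ _ (Z2_pos h k t).ne']
    simp_rw [mul_assoc]
    rw [sum_m k (fun u => m X t u * A X g t u), sum_m t (fun u => A X g t u)]
  rw [sub_mul, e, Z2_eq, Finset.sum_sub_distrib]
  simp only [Finset.sum_const, Finset.card_univ, Fintype.card_fin, nsmul_eq_mul]
  ring

theorem gap_green (k : Fin q) (hk : k ≠ g) : -(4 / X ^ 2) ≤ A X g g k - E X g k g := by
  have hX := h.Xpos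
  have h1 : ∀ u, -(4 / X ^ 2) ≤ A X g g k - A X g g u := by
    intro u
    have h2 := abs_le.mp (A_close h (g := g) k)
    have h3 := abs_le.mp (A_close h (g := g) u)
    have e : (4 : ℝ) / X ^ 2 = 2 / X ^ 2 + 2 / X ^ 2 := by ring
    rw [e]
    linarith [h2.1, h3.2]
  have hp : (0 : ℝ) ≤ 4 / X ^ 2 := by positivity
  refine le_of_mul_le_mul_right ?_ (Z2_pos h k g)
  rw [gap_eq h, Z2_eq, m_ne' hk]
  have h4 : (q : ℝ) * (-(4 / X ^ 2)) ≤ ∑ u, (A X g g k - A X g g u) := by
    calc (q : ℝ) * (-(4 / X ^ 2)) = ∑ _u : Fin q, (-(4 / X ^ 2)) := by simp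
      _ ≤ _ := Finset.sum_le_sum fun u _ => h1 u
  have h5 := mul_le_mul_of_nonneg_left (h1 g) (by linarith [h.Xone] : (0 : ℝ) ≤ X - 1)
  have h6 : 0 ≤ (X - 1) * (4 / X ^ 2) := mul_nonneg (by linarith [h.Xone]) hp
  linarith

theorem gap_same (k : Fin q) : -(q / X ^ 2) ≤ A X g k k - E X g k k := by
  have hX := h.Xpos
  have hq := h.Q3
  refine le_of_mul_le_mul_right ?_ (Z2_pos h k k)
  rw [gap_eq h, Z2_eq, m_self]
  have h4 : (q : ℝ) * (-1) ≤ ∑ u, (A X g k k - A X g k u) := by
    calc (q : ℝ) * (-1) = ∑ _u : Fin q, (-1 : ℝ) := by simp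
      _ ≤ _ := Finset.sum_le_sum fun u _ => by
        have := A_nonneg h (g := g) k k
        have := A_le h (g := g) k u
        linarith
  have h5 : (q : ℝ) ≤ q / X ^ 2 * (q + (X - 1) + (X - 1) * X) := by
    rw [div_mul_eq_mul_div, le_div_iff₀ (by positivity)]
    have : X ^ 2 ≤ q + (X - 1) + (X - 1) * X := by nlinarith
    exact mul_le_mul_of_nonneg_left this (by linarith)
  linarith

theorem gap_other {k l : Fin q} (hk : k ≠ g) (hl : l ≠ g) (hkl : k ≠ l) :
    1 / 50 ≤ A X g l k - E X g k l := by
  have hX := h.XQ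
  have hX1 := h.X1
  have hq := h.Q3
  refine le_of_mul_le_mul_right ?_ (Z2_pos h k l)
  rw [gap_eq h, Z2_eq, m_ne' hkl]
  have h4 : (q : ℝ) * (-1) ≤ ∑ u, (A X g l k - A X g l u) := by
    calc (q : ℝ) * (-1) = ∑ _u : Fin q, (-1 : ℝ) := by simp
      _ ≤ _ := Finset.sum_le_sum fun u _ => by
        have := A_nonneg h (g := g) l k
        have := A_le h (g := g) l u
        linarith
  have h5 := A_gap h hk hl hkl
  have h6 := mul_le_mul_of_nonneg_left h5 (by linarith : (0 : ℝ) ≤ X - 1)
  nlinarith

theorem term_le3 (x y z c : Fin q) : m X x c * m X y c * m X z c ≤ Z3 X x y z := by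
  unfold Z3
  exact Finset.single_le_sum (f := fun c => m X x c * m X y c * m X z c)
    (fun c _ => (mul_pos (mul_pos (mp h x c) (mp h y c)) (mp h z c)).le) (Finset.mem_univ c)

theorem psi_nonneg {k : Fin q} (hk : k ≠ g) (t : Fin q) : 0 ≤ psi X g k t := by
  unfold psi
  refine div_nonneg ?_ (Z3_pos h _ _ _).le
  have h1 := term_le3 h k t g k
  rw [m_self, m_ne' hk, m_comm t k] at h1
  linarith

theorem psi_le (k t : Fin q) : psi X g k t ≤ 1 := by
  unfold psi
  rw [div_le_one (Z3_pos h _ _ _)]
  have := mul_pos h.Xpos (mp h k t)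
  linarith

theorem psi_same {k : Fin q} (hk : k ≠ g) : psi X g k k ≤ 2 / X := by
  unfold psi
  have hZ := Z3_pos h k k g
  have hX := h.XQ
  have hX1 := h.X1
  have hq := h.Q3
  rw [div_le_div_iff₀ hZ h.Xpos, Z3_eq, Z2_eq, m_ne' hk, m_self]
  nlinarith

theorem psi_other {k l : Fin q} (hk : k ≠ g) (hl : l ≠ g) (hkl : k ≠ l) :
    1 / 2 ≤ psi X g k l := by
  unfold psi
  have hZ := Z3_pos h k l g
  have hX1 := h.X1
  have hq := h.Q3
  rw [le_div_iff₀ hZ, Z3_eq, Z2_eq, m_ne' hk, m_ne' hl, m_ne' hkl, m_ne hkl]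
  linarith

theorem T_pos {k : Fin q} (hk : k ≠ g) : 0 < T X g k := by
  have hX := h.Xpos
  have hX1 := h.X1
  have hXQ := h.XQ
  have hq := h.Q3
  have key : ∀ t : Fin q, 1 / 100 + (if g = t then (-(4 / X) - 1 / 100) else 0) +
      (if k = t then (-(2 * q / X) - 1 / 100) else 0) ≤
      m X k t ^ 2 * m X t g * psi X g k t * (A X g t k - E X g k t) := by
    intro t
    by_cases htg : g = t
    · subst htg
      rw [if_pos rfl, if_neg hk, m_ne hk, m_self]
      have h1 := gap_green h k hk
      have h2 := psi_nonneg h hk g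
      have h3 := psi_le h (g := g) k g
      have h4 : -(4 / X) ≤ X * psi X g k g * (A X g g k - E X g k g) := by
        have h5 : X * psi X g k g * (-(4 / X ^ 2)) ≤ X * psi X g k g * (A X g g k - E X g k g) :=
          mul_le_mul_of_nonneg_left h1 (mul_nonneg hX.le h2)
        refine le_trans ?_ h5
        have h6 : X * psi X g k g * (-(4 / X ^ 2)) = -(4 / X) * psi X g k g := by
          field_simp
        rw [h6]
        have h7 : 0 ≤ 4 / X := by positivity
        nlinarith
      linarith
    · by_cases htk : k = t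
      · subst htk
        rw [if_neg htg, if_pos rfl, m_self, m_ne hk]
        have h1 := gap_same h (g := g) k
        have h2 := psi_nonneg h hk k
        have h3 := psi_same h hk
        have h4 : -(2 * q / X) ≤ X ^ 2 * 1 * psi X g k k * (A X g k k - E X g k k) := by
          have h5 : X ^ 2 * 1 * psi X g k k * (-(q / X ^ 2)) ≤
              X ^ 2 * 1 * psi X g k k * (A X g k k - E X g k k) :=
            mul_le_mul_of_nonneg_left h1 (by positivity)
          refine le_trans ?_ h5
          have h6 : X ^ 2 * 1 * psi X g k k * (-(q / X ^ 2)) = -(q * psi X g k k) := by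
            field_simp
          rw [h6]
          have h7 : q * psi X g k k ≤ q * (2 / X) := mul_le_mul_of_nonneg_left h3 (by linarith)
          have h8 : (q : ℝ) * (2 / X) = 2 * q / X := by ring
          linarith
        linarith
      · rw [if_neg htg, if_neg htk, m_ne htk, m_ne' htg]
        have h1 := gap_other h hk (Ne.symm htg) htk
        have h2 := psi_other h hk (Ne.symm htg) htk
        nlinarith
  have h1 := Finset.sum_le_sum fun t (_ : t ∈ (Finset.univ : Finset (Fin q))) => key t
  refine lt_of_lt_of_le ?_ h1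
  rw [Finset.sum_add_distrib, Finset.sum_add_distrib, Finset.sum_ite_eq, Finset.sum_ite_eq]
  simp only [Finset.mem_univ, if_true, Finset.sum_const, Finset.card_univ, Fintype.card_fin,
    nsmul_eq_mul]
  have h2 : 4 / X ≤ 1 / 1000 := by rw [div_le_div_iff₀ hX (by norm_num)]; linarith
  have h3 : 2 * q / X ≤ 1 / 1000 := by rw [div_le_div_iff₀ hX (by norm_num)]; linarith
  linarith

theorem R_nonneg (s x : Fin q) : 0 ≤ R X g s x := by
  unfold R
  exact div_nonneg (mul_nonneg (mul_pos (mp h s g) (mp h x g)).le h.Xpos.le) (Z3_pos h _ _ _).le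

theorem R_le (s x : Fin q) : R X g s x ≤ 1 := by
  unfold R
  rw [div_le_one (Z3_pos h _ _ _)]
  have h1 := term_le3 h s x g g
  rwa [m_self] at h1

theorem R_green (t : Fin q) : 0.999 ≤ R X g g t := by
  unfold R
  have hZ := Z3_pos h g t g
  have h1 := m1 h t g
  have h2 := h.XQ
  have h3 := h.X1
  have h4 := h.Q3
  rw [le_div_iff₀ hZ, Z3_eq, Z2_eq, m_self, m_comm g t]
  nlinarith [mul_nonneg (by linarith : (0 : ℝ) ≤ m X t g - 1) (sq_nonneg X)]

theorem R_off {k t : Fin q} (hk : k ≠ g) (htk : t ≠ k) : 0.333 ≤ R X g k t := by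
  unfold R
  have hZ := Z3_pos h k t g
  have h2 := h.XQ
  have h3 := h.X1
  have h4 := h.Q3
  rw [le_div_iff₀ hZ, Z3_eq, Z2_eq, m_ne hk, m_ne' hk, m_ne htk]
  by_cases htg : t = g
  · subst htg
    rw [m_self]
    nlinarith
  · rw [m_ne htg, m_ne' htg]
    linarith

theorem R_same {k : Fin q} (hk : k ≠ g) : R X g k k ≤ 1 / X := by
  unfold R
  have hZ := Z3_pos h k k g
  have h4 := h.Q3
  have h5 := h.Xone
  rw [div_le_div_iff₀ hZ h.Xpos, Z3_eq, Z2_eq, m_self, m_ne hk, m_ne' hk]
  nlinarith

theorem G_nonneg (s x y : Fin q) : 0 ≤ G X g s x y := by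
  unfold G
  refine div_nonneg (Finset.sum_nonneg fun t _ => ?_) (Z3_pos h _ _ _).le
  exact mul_nonneg (mul_pos (mul_pos (mp h s t) (mp h x t)) (mp h y t)).le
    (mul_nonneg (R_nonneg h s t) (A_nonneg h t y))

/-- Lower bound for the density on the event. -/
theorem G_ge {s x y : Fin q} (hs : s = g ∨ (x ≠ s ∧ y ≠ s)) : 0.13 ≤ G X g s x y := by
  have hZ := Z3_pos h s x y
  unfold G
  rw [le_div_iff₀ hZ]
  by_cases hsg : s = g
  · subst hsg
    have h1 : ∀ t, m X s t * m X x t * m X y t * 0.13 ≤
        m X s t * m X x t * m X y t * (R X s s t * A X s t y) := by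
      intro t
      refine mul_le_mul_of_nonneg_left ?_ (mul_pos (mul_pos (mp h s t) (mp h x t)) (mp h y t)).le
      have h2 := R_green h (g := s) t
      have h3 := A_ge h (g := s) t y
      nlinarith
    calc 0.13 * Z3 X s x y = ∑ t, m X s t * m X x t * m X y t * 0.13 := by
          rw [Z3, mul_comm, Finset.sum_mul]
      _ ≤ _ := Finset.sum_le_sum fun t _ => h1 t
  · obtain ⟨hx, hy⟩ := hs.resolve_left hsg
    have h1 : ∀ t, m X s t * m X x t * m X y t * 0.1998 -
        (if s = t then m X s t * m X x t * m X y t * 0.1998 else 0) ≤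
        m X s t * m X x t * m X y t * (R X g s t * A X g t y) := by
      intro t
      have hW := (mul_pos (mul_pos (mp h s t) (mp h x t)) (mp h y t)).le
      by_cases hst : s = t
      · rw [if_pos hst, sub_self]
        exact mul_nonneg hW (mul_nonneg (R_nonneg h s t) (A_nonneg h t y))
      · rw [if_neg hst, sub_zero]
        refine mul_le_mul_of_nonneg_left ?_ hW
        have h2 := R_off h hsg (Ne.symm hst)
        have h3 := A_ge h (g := g) t y
        nlinarith
    refine le_trans ?_ (Finset.sum_le_sum fun t _ => h1 t)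
    rw [Finset.sum_sub_distrib, Finset.sum_ite_eq, if_pos (Finset.mem_univ _), m_self,
      m_ne hx, m_ne hy, ← Finset.sum_mul]
    change _ ≤ Z3 X s x y * 0.1998 - _
    have h4 : 3 * X ≤ Z3 X s x y := by
      rw [Z3_eq, Z2_eq, m_ne hx, m_ne hy]
      have h5 := m1 h y x
      have h6 := h.Q3
      have h7 := h.Xone
      nlinarith
    linarith

/-- Upper bound for the density off the event. -/
theorem G_le {s x y : Fin q} (hs : s ≠ g) (hxy : x = s ∨ y = s) : G X g s x y ≤ 3 / X := by
  have hX := h.Xpos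
  have hZ := Z3_pos h s x y
  have h2 := h.XQ
  have h3 := h.X1
  have h4 := h.Q3
  unfold G
  have h1 : ∀ t, m X s t * m X x t * m X y t * (R X g s t * A X g t y) ≤
      m X s t * m X x t * m X y t -
        (if s = t then m X s t * m X x t * m X y t * (1 - 1 / X) else 0) := by
    intro t
    have hW := (mul_pos (mul_pos (mp h s t) (mp h x t)) (mp h y t)).le
    have hA := A_le h (g := g) t y
    have hA0 := A_nonneg h (g := g) t y
    have hR0 := R_nonneg h (g := g) s t
    by_cases hst : s = t
    · subst hst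
      rw [if_pos rfl]
      have hR := R_same h hs
      have h5 : R X g s s * A X g s y ≤ 1 / X := by
        calc R X g s s * A X g s y ≤ R X g s s * 1 := mul_le_mul_of_nonneg_left hA hR0
          _ ≤ 1 / X := by rw [mul_one]; exact hR
      have h6 := mul_le_mul_of_nonneg_left h5 hW
      linarith
    · rw [if_neg hst, sub_zero]
      have hR := R_le h (g := g) s t
      have h5 : R X g s t * A X g t y ≤ 1 := by
        calc R X g s t * A X g t y ≤ 1 * 1 := mul_le_mul hR hA hA0 (by norm_num)
          _ = 1 := one_mul 1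
      have h6 := mul_le_mul_of_nonneg_left h5 hW
      linarith
  rw [div_le_div_iff₀ hZ hX]
  have h5 := Finset.sum_le_sum fun t (_ : t ∈ (Finset.univ : Finset (Fin q))) => h1 t
  rw [Finset.sum_sub_distrib, Finset.sum_ite_eq, if_pos (Finset.mem_univ _), m_self] at h5
  change _ ≤ Z3 X s x y - _ at h5
  have h6 : Z3 X s x y ≤ X * m X x s * m X y s + 2 * X := by
    rw [Z3_eq, Z2_eq]
    rcases hxy with rfl | rfl
    · rw [m_self]
      have := m1 h y x
      nlinarith
    · rw [m_self, m_comm y x]
      have := m1 h x y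
      nlinarith
  have h7 : X ^ 2 ≤ Z3 X s x y := by
    have h8 := term_le3 h s x y s
    rw [m_self] at h8
    refine le_trans ?_ h8
    rcases hxy with rfl | rfl
    · rw [m_self]
      have := m1 h y x
      nlinarith [sq_nonneg X]
    · rw [m_self]
      have := m1 h x y
      nlinarith [sq_nonneg X]
  have h9 : X * m X x s * m X y s * (1 - 1 / X) * X = X * m X x s * m X y s * (X - 1) := by
    field_simp
  have h10 := mul_le_mul_of_nonneg_right h5 hX.le
  rw [sub_mul, h9] at h10
  have h11 : 0 < X * m X x s * m X y s := mul_pos (mul_pos hX (mp h x s)) (mp h y s)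
  have h12 : X * m X x s * m X y s ≤ Z3 X s x y := by
    have h8 := term_le3 h s x y s
    rwa [m_self] at h8
  nlinarith

end Pool.Agent.H857R3.Potts
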