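import Mathlib
import Pool.Agent.H857R3.Potts.Est2

/-!
# The Potts model, its heat-bath updates, and the graph of the counterexample
-/

set_option autoImplicit false
set_option linter.unusedSectionVars false
set_option linter.unusedVariables false

open Finset Function

namespace Pool.Agent.H857R3.Potts

open Classical in
/-- The number of edges of `G` whose end points have the same colour in `σ`. -/
noncomputable def agree {n q : ℕ} (G : SimpleGraph (Fin n)) (σ : Fin n → Fin q) : ℝ :=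
  ∑ i, ∑ j, if i < j ∧ G.Adj i j ∧ σ i = σ j then 1 else 0

/-- The `q`-state Potts measure on `G` at inverse temperature `β`. -/
noncomputable def potts {n q : ℕ} (G : SimpleGraph (Fin n)) (β : ℝ) (σ : Fin n → Fin q) : ℝ :=
  Real.exp (β * agree G σ) / ∑ τ : Fin n → Fin q, Real.exp (β * agree G τ)

/-- The law `δ_g P_{v₁} ⋯ P_{v_T}` of the heat-bath dynamics started from the configuration in
which all vertices have the colour `g`, after the updates at the sites of the list `v`. -/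
noncomputable def law {n q : ℕ} (G : SimpleGraph (Fin n)) (β : ℝ) (g : Fin q)
    (v : List (Fin n)) : (Fin n → Fin q) → ℝ :=
  v.foldl (fun μ x => upd (potts G β) x μ) (fun σ => if σ = fun _ => g then 1 else 0)

/-- The edges of the graph, as a Boolean function. -/
def eb (i j : Fin 6) : Bool :=
  (i.val, j.val) ∈ [(0, 1), (0, 2), (0, 3), (0, 4), (1, 2), (1, 4), (2, 3)]

/-- The graph on `{0, ..., 5}` with edges `01, 02, 03, 04, 12, 14, 23` (vertex `5` is isolated). -/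
def Gr : SimpleGraph (Fin 6) where
  Adj i j := eb i j = true ∨ eb j i = true
  symm := ⟨fun _ _ h => Or.symm h⟩
  loopless := ⟨fun i h => by revert i; decide⟩

variable {q : ℕ}

/-- The weight of a configuration. -/
def wt (X : ℝ) (σ : Fin 6 → Fin q) : ℝ :=
  m X (σ 0) (σ 1) * m X (σ 0) (σ 2) * m X (σ 0) (σ 3) * m X (σ 0) (σ 4) *
    m X (σ 1) (σ 2) * m X (σ 1) (σ 4) * m X (σ 2) (σ 3)

theorem agree_eq (σ : Fin 6 → Fin q) : agree Gr σ =
    (if σ 0 = σ 1 then 1 else 0) + (if σ 0 = σ 2 then 1 else 0) + (if σ 0 = σ 3 then 1 else 0) +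
    (if σ 0 = σ 4 then 1 else 0) + (if σ 1 = σ 2 then 1 else 0) + (if σ 1 = σ 4 then 1 else 0) +
    (if σ 2 = σ 3 then (1 : ℝ) else 0) := by
  have h : ∀ i j : Fin 6, (i < j ∧ Gr.Adj i j) ↔ eb i j = true := by
    intro i j
    change (i < j ∧ (eb i j = true ∨ eb j i = true)) ↔ eb i j = true
    revert i j
    decide
  have h2 : agree Gr σ = ∑ i, ∑ j, if eb i j = true then (if σ i = σ j then (1 : ℝ) else 0) else 0 := by
    unfold agree
    refine Finset.sum_congr rfl fun i _ => Finset.sum_congr rfl fun j _ => ?_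
    by_cases h3 : eb i j = true
    · have h4 := (h i j).mpr h3
      rw [if_pos h3]
      by_cases h5 : σ i = σ j
      · rw [if_pos ⟨h4.1, h4.2, h5⟩, if_pos h5]
      · rw [if_neg (fun h6 => h5 h6.2.2), if_neg h5]
    · rw [if_neg h3, if_neg (fun h6 => h3 ((h i j).mp ⟨h6.1, h6.2.1⟩))]
  rw [h2]
  simp [Fin.sum_univ_succ, eb]
  ring

theorem exp_agree {X : ℝ} (hX : 0 < X) (σ : Fin 6 → Fin q) :
    Real.exp (Real.log X * agree Gr σ) = wt X σ := by
  have h : ∀ x y : Fin q, Real.exp (Real.log X * (if x = y then 1 else 0)) = m X x y := by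
    intro x y
    unfold m
    split_ifs
    · rw [mul_one, Real.exp_log hX]
    · rw [mul_zero, Real.exp_zero]
  rw [agree_eq]
  simp only [mul_add, Real.exp_add, h]
  rfl

variable {X : ℝ} {g : Fin q}

/-- The partition function. -/
noncomputable def Zp (q : ℕ) (X : ℝ) : ℝ := ∑ τ : Fin 6 → Fin q, wt X τ

theorem potts_eq (hX : 0 < X) : potts (q := q) Gr (Real.log X) = fun σ => wt X σ / Zp q X := by
  funext σ
  unfold potts Zp
  simp only [exp_agree hX]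

theorem pop_factor {V K : Type*} [Fintype V] [DecidableEq V] [Fintype K] [DecidableEq K]
    {p : (V → K) → ℝ} {v : V} {σ : V → K} {κ : ℝ} {f : K → ℝ} (hκ : κ ≠ 0)
    (hf : ∀ c, p (update σ v c) = κ * f c) (hh : (V → K) → ℝ) :
    pop p v hh σ = (∑ c, hh (update σ v c) * f c) / ∑ c, f c := by
  unfold pop
  simp_rw [hf]
  rw [← Finset.mul_sum]
  have e : ∑ c, hh (update σ v c) * (κ * f c) = κ * ∑ c, hh (update σ v c) * f c := by
    rw [Finset.mul_sum]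
    exact Finset.sum_congr rfl fun c _ => by ring
  rw [e, mul_div_mul_left _ _ hκ]

variable (h : Hyp q X)
include h

theorem wt_pos (σ : Fin 6 → Fin q) : 0 < wt X σ := by
  unfold wt
  have := mp h
  exact mul_pos (mul_pos (mul_pos (mul_pos (mul_pos (mul_pos (this _ _) (this _ _)) (this _ _))
    (this _ _)) (this _ _)) (this _ _)) (this _ _)

theorem Zp_pos : 0 < Zp q X := by
  have : Nonempty (Fin q) := ⟨⟨0, by have := h.hq; omega⟩⟩
  exact Finset.sum_pos (fun σ _ => wt_pos h σ) Finset.univ_nonempty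

theorem pop4 (hh : (Fin 6 → Fin q) → ℝ) (σ : Fin 6 → Fin q) :
    pop (fun σ => wt X σ / Zp q X) 4 hh σ =
      (∑ c, hh (update σ 4 c) * (m X (σ 0) c * m X (σ 1) c)) / Z2 X (σ 0) (σ 1) := by
  have hm := mp h
  have hZ := Zp_pos h
  refine pop_factor (κ := m X (σ 0) (σ 1) * m X (σ 0) (σ 2) * m X (σ 0) (σ 3) *
    m X (σ 1) (σ 2) * m X (σ 2) (σ 3) / Zp q X) (f := fun c => m X (σ 0) c * m X (σ 1) c) ?_
    (fun c => ?_) hh
  · exact (div_pos (mul_pos (mul_pos (mul_pos (mul_pos (hm _ _) (hm _ _)) (hm _ _)) (hm _ _))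
      (hm _ _)) hZ).ne'
  · simp [wt]
    ring

theorem pop1 (hh : (Fin 6 → Fin q) → ℝ) (σ : Fin 6 → Fin q) :
    pop (fun σ => wt X σ / Zp q X) 1 hh σ =
      (∑ c, hh (update σ 1 c) * (m X (σ 0) c * m X (σ 2) c * m X (σ 4) c)) /
        Z3 X (σ 0) (σ 2) (σ 4) := by
  have hm := mp h
  have hZ := Zp_pos h
  refine pop_factor (κ := m X (σ 0) (σ 2) * m X (σ 0) (σ 3) * m X (σ 0) (σ 4) *
    m X (σ 2) (σ 3) / Zp q X) (f := fun c => m X (σ 0) c * m X (σ 2) c * m X (σ 4) c) ?_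
    (fun c => ?_) hh
  · exact (div_pos (mul_pos (mul_pos (mul_pos (hm _ _) (hm _ _)) (hm _ _)) (hm _ _)) hZ).ne'
  · simp [wt]
    rw [m_comm c (σ 2), m_comm c (σ 4)]
    ring

theorem pop0 (hh : (Fin 6 → Fin q) → ℝ) (σ : Fin 6 → Fin q) :
    pop (fun σ => wt X σ / Zp q X) 0 hh σ =
      (∑ c, hh (update σ 0 c) * (m X (σ 1) c * m X (σ 2) c * m X (σ 3) c * m X (σ 4) c)) /
        Z4 X (σ 1) (σ 2) (σ 3) (σ 4) := by
  have hm := mp h
  have hZ := Zp_pos h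
  refine pop_factor (κ := m X (σ 1) (σ 2) * m X (σ 1) (σ 4) * m X (σ 2) (σ 3) / Zp q X)
    (f := fun c => m X (σ 1) c * m X (σ 2) c * m X (σ 3) c * m X (σ 4) c) ?_ (fun c => ?_) hh
  · exact (div_pos (mul_pos (mul_pos (hm _ _) (hm _ _)) (hm _ _)) hZ).ne'
  · simp [wt]
    rw [m_comm c (σ 1), m_comm c (σ 2), m_comm c (σ 3), m_comm c (σ 4)]
    ring

theorem pop2 (hh : (Fin 6 → Fin q) → ℝ) (σ : Fin 6 → Fin q) :
    pop (fun σ => wt X σ / Zp q X) 2 hh σ =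
      (∑ c, hh (update σ 2 c) * (m X (σ 0) c * m X (σ 1) c * m X (σ 3) c)) /
        Z3 X (σ 0) (σ 1) (σ 3) := by
  have hm := mp h
  have hZ := Zp_pos h
  refine pop_factor (κ := m X (σ 0) (σ 1) * m X (σ 0) (σ 3) * m X (σ 0) (σ 4) *
    m X (σ 1) (σ 4) / Zp q X) (f := fun c => m X (σ 0) c * m X (σ 1) c * m X (σ 3) c) ?_
    (fun c => ?_) hh
  · exact (div_pos (mul_pos (mul_pos (mul_pos (hm _ _) (hm _ _)) (hm _ _)) (hm _ _)) hZ).ne'
  · simp [wt]
    rw [m_comm c (σ 3)]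
    ring

/-! ### Bounds for the partition function -/

omit h in
theorem sum_ind_step {F : (Fin 6 → Fin q) → ℝ} {v : Fin 6} (hv : v ≠ 0) (hq : (q : ℝ) ≠ 0)
    (hF : ∀ σ c, F (update σ v c) = F σ) :
    ∑ σ : Fin 6 → Fin q, (if σ v = σ 0 then 1 else 0) * F σ = (∑ σ, F σ) / q := by
  have h1 := sum_fiber v (fun σ : Fin 6 → Fin q => (if σ v = σ 0 then (1 : ℝ) else 0) * F σ)
  simp only [Fintype.card_fin] at h1
  rw [eq_div_iff hq, mul_comm _ (q : ℝ), ← h1]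
  refine Finset.sum_congr rfl fun σ _ => ?_
  simp only [hF, Function.update_self, Function.update_of_ne hv.symm]
  rw [← Finset.sum_mul, Finset.sum_ite_eq' Finset.univ (σ 0) (fun _ => (1 : ℝ)),
    if_pos (Finset.mem_univ _), one_mul]

theorem sum_eqv : ∑ σ : Fin 6 → Fin q, (if σ 1 = σ 0 then (1 : ℝ) else 0) *
    ((if σ 2 = σ 0 then 1 else 0) * ((if σ 3 = σ 0 then 1 else 0) *
      ((if σ 4 = σ 0 then 1 else 0) * 1))) = (q : ℝ) ^ 2 := by
  have hq : (q : ℝ) ≠ 0 := by have := h.Q3; linarith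
  rw [sum_ind_step (by decide) hq (by intro σ c; simp),
    sum_ind_step (by decide) hq (by intro σ c; simp),
    sum_ind_step (by decide) hq (by intro σ c; simp),
    sum_ind_step (by decide) hq (by intro σ c; rfl)]
  simp
  field_simp

theorem six_le {a b c d e f : ℝ} (ha : 1 ≤ a) (hb : 1 ≤ b) (hc : 1 ≤ c) (hd : 1 ≤ d) (he : 1 ≤ e)
    (hf : 1 ≤ f) (ha' : a ≤ X) (hb' : b ≤ X) (hc' : c ≤ X) (hd' : d ≤ X) (he' : e ≤ X)
    (hf' : f ≤ X) : a * b * c * d * e * f ≤ X ^ 6 := by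
  have hX := h.Xpos
  have a0 : 0 ≤ a := by linarith
  have b0 : 0 ≤ b := by linarith
  have c0 : 0 ≤ c := by linarith
  have d0 : 0 ≤ d := by linarith
  have e0 : 0 ≤ e := by linarith
  have f0 : 0 ≤ f := by linarith
  calc a * b * c * d * e * f ≤ X * X * X * X * X * X := by gcongr
    _ = X ^ 6 := by ring

theorem wt_upper (σ : Fin 6 → Fin q) : wt X σ ≤ X ^ 7 * ((if σ 1 = σ 0 then (1 : ℝ) else 0) *
    ((if σ 2 = σ 0 then 1 else 0) * ((if σ 3 = σ 0 then 1 else 0) *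
      ((if σ 4 = σ 0 then 1 else 0) * 1)))) + X ^ 6 := by
  have hX := h.Xpos
  have a1 := m1 h
  have a2 := mX h
  unfold wt
  by_cases h1 : σ 1 = σ 0
  swap
  · rw [if_neg h1, m_ne (Ne.symm h1)]
    simp only [zero_mul, mul_zero, zero_add, one_mul]
    exact six_le h (a1 _ _) (a1 _ _) (a1 _ _) (a1 _ _) (a1 _ _) (a1 _ _) (a2 _ _) (a2 _ _) (a2 _ _)
      (a2 _ _) (a2 _ _) (a2 _ _)
  by_cases h2 : σ 2 = σ 0
  swap
  · rw [if_neg h2, m_ne (x := σ 0) (y := σ 2) (Ne.symm h2)]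
    simp only [zero_mul, mul_zero, zero_add, mul_one]
    exact six_le h (a1 _ _) (a1 _ _) (a1 _ _) (a1 _ _) (a1 _ _) (a1 _ _) (a2 _ _) (a2 _ _) (a2 _ _)
      (a2 _ _) (a2 _ _) (a2 _ _)
  by_cases h3 : σ 3 = σ 0
  swap
  · rw [if_neg h3, m_ne (x := σ 0) (y := σ 3) (Ne.symm h3)]
    simp only [zero_mul, mul_zero, zero_add, mul_one]
    exact six_le h (a1 _ _) (a1 _ _) (a1 _ _) (a1 _ _) (a1 _ _) (a1 _ _) (a2 _ _) (a2 _ _) (a2 _ _)
      (a2 _ _) (a2 _ _) (a2 _ _)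
  by_cases h4 : σ 4 = σ 0
  swap
  · rw [if_neg h4, m_ne (x := σ 0) (y := σ 4) (Ne.symm h4)]
    simp only [zero_mul, mul_zero, zero_add, mul_one]
    exact six_le h (a1 _ _) (a1 _ _) (a1 _ _) (a1 _ _) (a1 _ _) (a1 _ _) (a2 _ _) (a2 _ _) (a2 _ _)
      (a2 _ _) (a2 _ _) (a2 _ _)
  rw [if_pos h1, if_pos h2, if_pos h3, if_pos h4, h1, h2, h3, h4]
  simp only [m_self]
  have : (0 : ℝ) ≤ X ^ 6 := by positivity
  nlinarith

theorem wt_lower (σ : Fin 6 → Fin q) : X ^ 7 * ((if σ 1 = σ 0 then (1 : ℝ) else 0) *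
    ((if σ 2 = σ 0 then 1 else 0) * ((if σ 3 = σ 0 then 1 else 0) *
      ((if σ 4 = σ 0 then 1 else 0) * 1)))) ≤ wt X σ := by
  have hpos := (wt_pos h σ).le
  by_cases h1 : σ 1 = σ 0
  swap
  · rw [if_neg h1]; simpa using hpos
  by_cases h2 : σ 2 = σ 0
  swap
  · rw [if_neg h2]; simpa using hpos
  by_cases h3 : σ 3 = σ 0
  swap
  · rw [if_neg h3]; simpa using hpos
  by_cases h4 : σ 4 = σ 0
  swap
  · rw [if_neg h4]; simpa using hpos
  rw [if_pos h1, if_pos h2, if_pos h3, if_pos h4]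
  unfold wt
  rw [h1, h2, h3, h4]
  simp only [m_self]
  apply le_of_eq
  ring

theorem Zp_lower : (q : ℝ) ^ 2 * X ^ 7 ≤ Zp q X := by
  calc (q : ℝ) ^ 2 * X ^ 7 = X ^ 7 * (q : ℝ) ^ 2 := by ring
    _ = ∑ σ : Fin 6 → Fin q, X ^ 7 * ((if σ 1 = σ 0 then (1 : ℝ) else 0) *
    ((if σ 2 = σ 0 then 1 else 0) * ((if σ 3 = σ 0 then 1 else 0) *
      ((if σ 4 = σ 0 then 1 else 0) * 1)))) := by rw [← Finset.mul_sum, sum_eqv h]
    _ ≤ Zp q X := Finset.sum_le_sum fun σ _ => wt_lower h σ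

theorem Zp_upper : Zp q X ≤ 2 * (q : ℝ) ^ 2 * X ^ 7 := by
  have hX := h.Xpos
  have h1 : Zp q X ≤ ∑ σ : Fin 6 → Fin q, (X ^ 7 * ((if σ 1 = σ 0 then (1 : ℝ) else 0) *
    ((if σ 2 = σ 0 then 1 else 0) * ((if σ 3 = σ 0 then 1 else 0) *
      ((if σ 4 = σ 0 then 1 else 0) * 1)))) + X ^ 6) := Finset.sum_le_sum fun σ _ => wt_upper h σ
  rw [Finset.sum_add_distrib, ← Finset.mul_sum, sum_eqv h] at h1
  simp only [Finset.sum_const, Finset.card_univ, Fintype.card_fun, Fintype.card_fin,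
    nsmul_eq_mul] at h1
  push_cast at h1
  have h2 : (q : ℝ) ^ 4 ≤ X := by
    have := h.hX
    have h3 : (0 : ℝ) ≤ (q : ℝ) ^ 4 := by positivity
    linarith
  have h3 : (q : ℝ) ^ 6 * X ^ 6 ≤ (q : ℝ) ^ 2 * X ^ 7 := by
    calc (q : ℝ) ^ 6 * X ^ 6 = (q : ℝ) ^ 2 * X ^ 6 * (q : ℝ) ^ 4 := by ring
      _ ≤ (q : ℝ) ^ 2 * X ^ 6 * X := mul_le_mul_of_nonneg_left h2 (by positivity)
      _ = (q : ℝ) ^ 2 * X ^ 7 := by ring
  linarith

end Pool.Agent.H857R3.Potts
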