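import Mathlib
import Pool.Agent.H857R3.Potts.Model

/-!
# The densities along the update sequence
-/

set_option autoImplicit false
set_option linter.unusedSectionVars false
set_option linter.unusedVariables false

open Finset Function

namespace Pool.Agent.H857R3.Potts

variable {q : ℕ} {X : ℝ} {g : Fin q}

/-- The normalised Potts weights. -/
noncomputable def pp (q : ℕ) (X : ℝ) (σ : Fin 6 → Fin q) : ℝ := wt X σ / Zp q X

/-- Indicator of green. -/
def ig (g x : Fin q) : ℝ := if x = g then 1 else 0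

/-- Indicator that the vertices `2, 3, 5` are green. -/
def J (g : Fin q) (σ : Fin 6 → Fin q) : ℝ := ig g (σ 2) * (ig g (σ 3) * ig g (σ 5))

theorem ig_self : ig g g = 1 := by simp [ig]

theorem ig_ne {x : Fin q} (hx : x ≠ g) : ig g x = 0 := by simp [ig, hx]

theorem sum_ig (F : Fin q → ℝ) : ∑ c, ig g c * F c = F g := by
  unfold ig
  simp

/-- Density of the initial state. -/
noncomputable def h0 (X : ℝ) (g : Fin q) (σ : Fin 6 → Fin q) : ℝ :=
  Zp q X / X ^ 7 * (ig g (σ 0) * (ig g (σ 1) * (ig g (σ 4) * J g σ)))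

/-- The constant. -/
noncomputable def c1 (X : ℝ) (g : Fin q) : ℝ := Zp q X / X ^ 7 * (X ^ 2 / Z2 X g g)

variable (h : Hyp q X)
include h

theorem init_eq (g : Fin q) : (fun σ : Fin 6 → Fin q => if σ = fun _ => g then (1 : ℝ) else 0) =
    fun σ => h0 X g σ * pp q X σ := by
  have hX := h.Xpos
  have hZ := Zp_pos h
  funext σ
  by_cases hσ : σ = fun _ => g
  · subst hσ
    simp only [if_true, h0, J, ig_self, pp, wt, m_self]
    field_simp
  · rw [if_neg hσ]
    obtain ⟨i, hi⟩ : ∃ i, σ i ≠ g := by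
      by_contra hcon
      push Not at hcon
      exact hσ (funext hcon)
    have h1 : ig g (σ 0) * (ig g (σ 1) * (ig g (σ 4) * J g σ)) = 0 := by
      unfold J
      have h2 := ig_ne hi
      fin_cases i <;> simp only [Fin.zero_eta, Fin.mk_one, Fin.reduceFinMk] at h2 <;> rw [h2] <;> ring
    rw [h0, h1]
    ring

theorem step1 : pop (pp q X) 4 (h0 X g) =
    fun σ => c1 X g * (ig g (σ 0) * (ig g (σ 1) * J g σ)) := by
  funext σ
  unfold pp
  rw [pop4 h]
  have e : ∀ c, h0 X g (update σ 4 c) * (m X (σ 0) c * m X (σ 1) c) =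
      ig g c * (Zp q X / X ^ 7 * (ig g (σ 0) * (ig g (σ 1) * J g σ)) *
        (m X (σ 0) c * m X (σ 1) c)) := by
    intro c
    simp [h0, J]
    ring
  simp_rw [e]
  rw [sum_ig]
  by_cases h0' : σ 0 = g
  swap
  · rw [ig_ne h0']; ring
  by_cases h1' : σ 1 = g
  swap
  · rw [ig_ne h1']; ring
  rw [h0', h1', m_self, c1]
  ring

theorem step2 : pop (pp q X) 1 (fun σ => c1 X g * (ig g (σ 0) * (ig g (σ 1) * J g σ))) =
    fun σ => c1 X g * (ig g (σ 0) * (J g σ * B X g (σ 4))) := by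
  funext σ
  unfold pp
  rw [pop1 h]
  have e : ∀ c, (fun σ : Fin 6 → Fin q => c1 X g * (ig g (σ 0) * (ig g (σ 1) * J g σ)))
      (update σ 1 c) * (m X (σ 0) c * m X (σ 2) c * m X (σ 4) c) =
      ig g c * (c1 X g * (ig g (σ 0) * J g σ) *
        (m X (σ 0) c * m X (σ 2) c * m X (σ 4) c)) := by
    intro c
    simp [J]
    ring
  simp_rw [e]
  rw [sum_ig]
  by_cases h0' : σ 0 = g
  swap
  · rw [ig_ne h0']; ring
  by_cases h2' : σ 2 = g
  swap
  · rw [J, ig_ne h2']; ring
  rw [h0', h2', m_self, B, m_comm g (σ 4)]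
  ring

theorem step3 : pop (pp q X) 0 (fun σ => c1 X g * (ig g (σ 0) * (J g σ * B X g (σ 4)))) =
    fun σ => c1 X g * (J g σ * C X g (σ 1) (σ 4)) := by
  funext σ
  unfold pp
  rw [pop0 h]
  have e : ∀ c, (fun σ : Fin 6 → Fin q => c1 X g * (ig g (σ 0) * (J g σ * B X g (σ 4))))
      (update σ 0 c) * (m X (σ 1) c * m X (σ 2) c * m X (σ 3) c * m X (σ 4) c) =
      ig g c * (c1 X g * (J g σ * B X g (σ 4)) *
        (m X (σ 1) c * m X (σ 2) c * m X (σ 3) c * m X (σ 4) c)) := by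
    intro c
    simp [J]
    ring
  simp_rw [e]
  rw [sum_ig]
  by_cases h2' : σ 2 = g
  swap
  · rw [J, ig_ne h2']; ring
  by_cases h3' : σ 3 = g
  swap
  · rw [J, ig_ne h3']; ring
  rw [h2', h3', m_self, C]
  ring

theorem step4 : pop (pp q X) 4 (fun σ => c1 X g * (J g σ * C X g (σ 1) (σ 4))) =
    fun σ => c1 X g * (J g σ * D X g (σ 0) (σ 1)) := by
  funext σ
  unfold pp
  rw [pop4 h]
  have e : ∀ c, (fun σ : Fin 6 → Fin q => c1 X g * (J g σ * C X g (σ 1) (σ 4)))
      (update σ 4 c) * (m X (σ 0) c * m X (σ 1) c) =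
      c1 X g * J g σ * (m X (σ 0) c * m X (σ 1) c * C X g (σ 1) c) := by
    intro c
    simp [J]
    ring
  simp_rw [e]
  rw [← Finset.mul_sum, D]
  ring

theorem step5 : pop (pp q X) 0 (fun σ => c1 X g * (J g σ * D X g (σ 0) (σ 1))) =
    fun σ => c1 X g * (J g σ * A X g (σ 1) (σ 4)) := by
  funext σ
  unfold pp
  rw [pop0 h]
  have e : ∀ c, (fun σ : Fin 6 → Fin q => c1 X g * (J g σ * D X g (σ 0) (σ 1)))
      (update σ 0 c) * (m X (σ 1) c * m X (σ 2) c * m X (σ 3) c * m X (σ 4) c) =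
      c1 X g * J g σ * (m X (σ 1) c * m X (σ 2) c * m X (σ 3) c * m X (σ 4) c *
        D X g c (σ 1)) := by
    intro c
    simp [J]
    ring
  simp_rw [e]
  rw [← Finset.mul_sum]
  by_cases h2' : σ 2 = g
  swap
  · rw [J, ig_ne h2']; ring
  by_cases h3' : σ 3 = g
  swap
  · rw [J, ig_ne h3']; ring
  rw [h2', h3', A]
  ring

theorem step6 : pop (pp q X) 4 (fun σ => c1 X g * (J g σ * A X g (σ 1) (σ 4))) =
    fun σ => c1 X g * (J g σ * E X g (σ 0) (σ 1)) := by
  funext σ
  unfold pp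
  rw [pop4 h]
  have e : ∀ c, (fun σ : Fin 6 → Fin q => c1 X g * (J g σ * A X g (σ 1) (σ 4)))
      (update σ 4 c) * (m X (σ 0) c * m X (σ 1) c) =
      c1 X g * J g σ * (m X (σ 0) c * m X (σ 1) c * A X g (σ 1) c) := by
    intro c
    simp [J]
    ring
  simp_rw [e]
  rw [← Finset.mul_sum, E]
  ring

theorem step7 : pop (pp q X) 2 (fun σ => c1 X g * (J g σ * A X g (σ 1) (σ 4))) =
    fun σ => c1 X g * (ig g (σ 3) * (ig g (σ 5) * (R X g (σ 0) (σ 1) * A X g (σ 1) (σ 4)))) := by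
  funext σ
  unfold pp
  rw [pop2 h]
  have e : ∀ c, (fun σ : Fin 6 → Fin q => c1 X g * (J g σ * A X g (σ 1) (σ 4)))
      (update σ 2 c) * (m X (σ 0) c * m X (σ 1) c * m X (σ 3) c) =
      ig g c * (c1 X g * (ig g (σ 3) * (ig g (σ 5) * A X g (σ 1) (σ 4))) *
        (m X (σ 0) c * m X (σ 1) c * m X (σ 3) c)) := by
    intro c
    simp [J]
    ring
  simp_rw [e]
  rw [sum_ig]
  by_cases h3' : σ 3 = g
  swap
  · rw [ig_ne h3']; ring
  rw [h3', m_self, R]
  ring

theorem step8 : pop (pp q X) 1 (fun σ => c1 X g * (ig g (σ 3) * (ig g (σ 5) *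
      (R X g (σ 0) (σ 1) * A X g (σ 1) (σ 4))))) =
    fun σ => c1 X g * (ig g (σ 3) * (ig g (σ 5) * G X g (σ 0) (σ 2) (σ 4))) := by
  funext σ
  unfold pp
  rw [pop1 h]
  have e : ∀ c, (fun σ : Fin 6 → Fin q => c1 X g * (ig g (σ 3) * (ig g (σ 5) *
      (R X g (σ 0) (σ 1) * A X g (σ 1) (σ 4)))))
      (update σ 1 c) * (m X (σ 0) c * m X (σ 2) c * m X (σ 4) c) =
      c1 X g * (ig g (σ 3) * ig g (σ 5)) * (m X (σ 0) c * m X (σ 2) c * m X (σ 4) c *
        (R X g (σ 0) c * A X g c (σ 4))) := by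
    intro c
    simp
    ring
  simp_rw [e]
  rw [← Finset.mul_sum, G]
  ring

/-- The density after the updates `4, 1, 0, 4, 0`. -/
noncomputable def h5 (X : ℝ) (g : Fin q) (σ : Fin 6 → Fin q) : ℝ :=
  c1 X g * (J g σ * A X g (σ 1) (σ 4))

/-- The density after the updates `4, 1, 0, 4, 0, 4`. -/
noncomputable def h6 (X : ℝ) (g : Fin q) (σ : Fin 6 → Fin q) : ℝ :=
  c1 X g * (J g σ * E X g (σ 0) (σ 1))

theorem law_short : law Gr (Real.log X) g [4, 1, 0, 4, 0, 2, 1] =
    fun σ => c1 X g * (ig g (σ 3) * (ig g (σ 5) * G X g (σ 0) (σ 2) (σ 4))) * pp q X σ := by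
  have hp : potts (q := q) Gr (Real.log X) = pp q X := potts_eq h.Xpos
  unfold law
  simp only [List.foldl_cons, List.foldl_nil, hp]
  rw [init_eq h g, upd_density, upd_density, upd_density, upd_density, upd_density, upd_density,
    upd_density, step1 h, step2 h, step3 h, step4 h, step5 h, step7 h, step8 h]

theorem law_short' : law Gr (Real.log X) g [4, 1, 0, 4, 0, 2, 1] =
    fun σ => pop (pp q X) 1 (pop (pp q X) 2 (h5 X g)) σ * pp q X σ := by
  have hp : potts (q := q) Gr (Real.log X) = pp q X := potts_eq h.Xpos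
  unfold law h5
  simp only [List.foldl_cons, List.foldl_nil, hp]
  rw [init_eq h g, upd_density, upd_density, upd_density, upd_density, upd_density, upd_density,
    upd_density, step1 h, step2 h, step3 h, step4 h, step5 h]

theorem law_long : law Gr (Real.log X) g [4, 1, 0, 4, 0, 4, 2, 1] =
    fun σ => pop (pp q X) 1 (pop (pp q X) 2 (h6 X g)) σ * pp q X σ := by
  have hp : potts (q := q) Gr (Real.log X) = pp q X := potts_eq h.Xpos
  unfold law h6
  simp only [List.foldl_cons, List.foldl_nil, hp]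
  rw [init_eq h g, upd_density, upd_density, upd_density, upd_density, upd_density, upd_density,
    upd_density, upd_density, step1 h, step2 h, step3 h, step4 h, step5 h, step6 h]

end Pool.Agent.H857R3.Potts
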