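import Mathlib
import Pool.Agent.H857R3.Potts.Dens

/-!
# The extra update increases the total variation distance
-/

set_option autoImplicit false
set_option linter.unusedSectionVars false
set_option linter.unusedVariables false

open Finset Function

namespace Pool.Agent.H857R3.Potts

variable {q : ℕ} {X : ℝ} {g : Fin q}

/-- The event, as an indicator. -/
def ev (g s x y : Fin q) : ℝ := if s = g ∨ (x ≠ s ∧ y ≠ s) then 1 else 0

/-- Indicator of the event on which the density is at least one. -/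
def ind (g : Fin q) (σ : Fin 6 → Fin q) : ℝ :=
  ig g (σ 3) * (ig g (σ 5) * ev g (σ 0) (σ 2) (σ 4))

/-- The event on which the density is at least one. -/
def evt (g : Fin q) : Finset (Fin 6 → Fin q) :=
  Finset.univ.filter fun σ => σ 3 = g ∧ σ 5 = g ∧ (σ 0 = g ∨ (σ 2 ≠ σ 0 ∧ σ 4 ≠ σ 0))

theorem ind_eq (σ : Fin 6 → Fin q) : ind g σ = if σ ∈ evt g then 1 else 0 := by
  unfold ind evt ev ig
  by_cases h3 : σ 3 = g
  · by_cases h5 : σ 5 = g
    · simp [h3, h5]
    · simp [h3, h5]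
  · simp [h3]

theorem sum_evt (F : (Fin 6 → Fin q) → ℝ) : ∑ σ ∈ evt g, F σ = ∑ σ, F σ * ind g σ := by
  simp only [ind_eq, mul_ite, mul_one, mul_zero]
  rw [Finset.sum_ite_mem, Finset.univ_inter]

variable (h : Hyp q X)
include h

theorem pp_pos (σ : Fin 6 → Fin q) : 0 < pp q X σ := div_pos (wt_pos h σ) (Zp_pos h)

theorem pp_sum : ∑ σ : Fin 6 → Fin q, pp q X σ = 1 := by
  unfold pp
  rw [← Finset.sum_div]
  exact div_self (Zp_pos h).ne'

theorem c0_lower : (q : ℝ) ^ 2 ≤ Zp q X / X ^ 7 := by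
  have hX := h.Xpos
  rw [le_div_iff₀ (by positivity)]
  exact Zp_lower h

theorem c0_upper : Zp q X / X ^ 7 ≤ 2 * (q : ℝ) ^ 2 := by
  have hX := h.Xpos
  rw [div_le_iff₀ (by positivity)]
  exact Zp_upper h

theorem c1_bounds : 8.9 ≤ c1 X g ∧ c1 X g ≤ 2 * (q : ℝ) ^ 2 := by
  have hX := h.Xpos
  have hX1 := h.X1
  have hXQ := h.XQ
  have hq := h.Q3
  have hZ := Z2_pos h g g
  have hc0 := c0_lower h
  have hc0' := c0_upper h
  have h9 : (9 : ℝ) ≤ (q : ℝ) ^ 2 := by nlinarith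
  have r1 : 0.99 ≤ X ^ 2 / Z2 X g g := by
    rw [le_div_iff₀ hZ, Z2_eq, m_self]
    nlinarith
  have r2 : X ^ 2 / Z2 X g g ≤ 1 := by
    rw [div_le_one hZ, Z2_eq, m_self]
    nlinarith
  unfold c1
  constructor
  · have := mul_le_mul (le_trans h9 hc0) r1 (by norm_num) (le_trans (by positivity) hc0)
    linarith
  · have h0 : 0 ≤ Zp q X / X ^ 7 := le_trans (by positivity) hc0
    calc Zp q X / X ^ 7 * (X ^ 2 / Z2 X g g) ≤ Zp q X / X ^ 7 * 1 :=
          mul_le_mul_of_nonneg_left r2 h0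
      _ ≤ 2 * (q : ℝ) ^ 2 := by rw [mul_one]; exact hc0'

theorem c1_pos : 0 < c1 X g := lt_of_lt_of_le (by norm_num) (c1_bounds h (g := g)).1

/-- On the event the density of the censored law is at least one. -/
theorem dens_ge (σ : Fin 6 → Fin q) (hσ : σ ∈ evt g) :
    1 ≤ c1 X g * (ig g (σ 3) * (ig g (σ 5) * G X g (σ 0) (σ 2) (σ 4))) := by
  simp only [evt, Finset.mem_filter, Finset.mem_univ, true_and] at hσ
  obtain ⟨h3, h5, h0⟩ := hσ
  rw [h3, h5, ig_self, one_mul, one_mul]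
  have h1 := G_ge h h0
  have h2 := (c1_bounds h (g := g)).1
  nlinarith

/-- Off the event the density of the censored law is at most one. -/
theorem dens_le (σ : Fin 6 → Fin q) (hσ : σ ∉ evt g) :
    c1 X g * (ig g (σ 3) * (ig g (σ 5) * G X g (σ 0) (σ 2) (σ 4))) ≤ 1 := by
  simp only [evt, Finset.mem_filter, Finset.mem_univ, true_and] at hσ
  by_cases h3 : σ 3 = g
  swap
  · rw [ig_ne h3]; simp
  by_cases h5 : σ 5 = g
  swap
  · rw [ig_ne h5]; simp
  have h0 : ¬ (σ 0 = g ∨ (σ 2 ≠ σ 0 ∧ σ 4 ≠ σ 0)) := fun hc => hσ ⟨h3, h5, hc⟩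
  push Not at h0
  obtain ⟨hs, hxy⟩ := h0
  have hxy' : σ 2 = σ 0 ∨ σ 4 = σ 0 := by
    by_cases h2 : σ 2 = σ 0
    · exact Or.inl h2
    · exact Or.inr (hxy h2)
  rw [h3, h5, ig_self, one_mul, one_mul]
  have h1 := G_le h hs hxy'
  have h2 := (c1_bounds h (g := g)).2
  have hX := h.Xpos
  have hXQ := h.XQ2
  have hc := c1_pos h (g := g)
  calc c1 X g * G X g (σ 0) (σ 2) (σ 4) ≤ 2 * (q : ℝ) ^ 2 * (3 / X) :=
        mul_le_mul h2 h1 (G_nonneg h _ _ _) (by positivity)
    _ = 6 * (q : ℝ) ^ 2 / X := by ring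
    _ ≤ 1 := by
        rw [div_le_one hX]
        have : (0 : ℝ) ≤ (q : ℝ) ^ 2 := by positivity
        linarith

/-- The test function. -/
noncomputable def phi (X : ℝ) (g : Fin q) : (Fin 6 → Fin q) → ℝ := pop (pp q X) 2 (ind g)

theorem phi_eq (σ : Fin 6 → Fin q) (h3 : σ 3 = g) (h5 : σ 5 = g) :
    phi X g σ = if σ 0 = g then 1 else if σ 4 = σ 0 then 0 else psi X g (σ 0) (σ 1) := by
  unfold phi
  change pop (fun σ => wt X σ / Zp q X) 2 (ind g) σ = _
  rw [pop2 h]
  have e : ∀ c, ind g (update σ 2 c) * (m X (σ 0) c * m X (σ 1) c * m X (σ 3) c) =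
      ev g (σ 0) c (σ 4) * (m X (σ 0) c * m X (σ 1) c * m X g c) := by
    intro c
    simp [ind, h3, h5, ig_self]
  simp_rw [e]
  rw [h3]
  have hZ := Z3_pos h (σ 0) (σ 1) g
  by_cases h0 : σ 0 = g
  · rw [if_pos h0]
    have e2 : ∀ c, ev g (σ 0) c (σ 4) * (m X (σ 0) c * m X (σ 1) c * m X g c) =
        m X (σ 0) c * m X (σ 1) c * m X g c := by
      intro c
      simp [ev, h0]
    simp_rw [e2]
    exact div_self hZ.ne'
  · rw [if_neg h0]
    by_cases h4 : σ 4 = σ 0
    · rw [if_pos h4]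
      have e2 : ∀ c, ev g (σ 0) c (σ 4) * (m X (σ 0) c * m X (σ 1) c * m X g c) = 0 := by
        intro c
        simp [ev, h0, h4]
      simp_rw [e2]
      simp
    · rw [if_neg h4]
      have e2 : ∀ c, ev g (σ 0) c (σ 4) * (m X (σ 0) c * m X (σ 1) c * m X g c) =
          m X (σ 0) c * m X (σ 1) c * m X g c -
            (if σ 0 = c then m X (σ 0) c * m X (σ 1) c * m X g c else 0) := by
        intro c
        by_cases hc : σ 0 = c
        · rw [if_pos hc, sub_self]
          simp only [ev, h0, h4, hc.symm, ne_eq, not_true_eq_false, false_and, or_false, if_false,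
            zero_mul]
        · rw [if_neg hc, sub_zero]
          simp only [ev, h4, ne_eq, not_false_eq_true, and_true, Ne.symm hc, or_true, if_true,
            one_mul]
      simp_rw [e2]
      rw [Finset.sum_sub_distrib, Finset.sum_ite_eq, if_pos (Finset.mem_univ _), m_self,
        m_ne' h0, psi, m_comm (σ 1) (σ 0), mul_one]
      rfl

theorem ind_indep (σ : Fin 6 → Fin q) (c : Fin q) : ind g (update σ 1 c) = ind g σ := by
  simp [ind]

/-- The gain of the extra update, tested against `phi`. -/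
noncomputable def Fg (X : ℝ) (g : Fin q) (σ : Fin 6 → Fin q) : ℝ :=
  pp q X σ * ((h6 X g σ - h5 X g σ) * phi X g σ)

theorem inner_sum (τ : Fin 6 → Fin q) : ∑ s, Fg X g (update τ 4 s) =
    if J g τ = 0 ∨ τ 0 = g then 0 else c1 X g * (X ^ 2 / Zp q X) *
      (m X (τ 0) (τ 1) ^ 2 * m X (τ 1) g * psi X g (τ 0) (τ 1) *
        (A X g (τ 1) (τ 0) - E X g (τ 0) (τ 1))) := by
  by_cases hJ : J g τ = 0
  · rw [if_pos (Or.inl hJ)]
    refine Finset.sum_eq_zero fun s _ => ?_
    have : J g (update τ 4 s) = 0 := by rw [← hJ]; simp [J]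
    simp [Fg, h6, h5, this]
  have h2 : τ 2 = g := by
    by_contra hc; exact hJ (by rw [J, ig_ne hc]; ring)
  have h3 : τ 3 = g := by
    by_contra hc; exact hJ (by rw [J, ig_ne hc]; ring)
  have h5' : τ 5 = g := by
    by_contra hc; exact hJ (by rw [J, ig_ne hc]; ring)
  have hJ1 : J g τ = 1 := by rw [J, h2, h3, h5', ig_self]; ring
  -- the summand
  have e : ∀ s, Fg X g (update τ 4 s) =
      m X (τ 0) (τ 1) * m X (τ 0) g * m X (τ 0) g * m X (τ 1) g * X / Zp q X * c1 X g *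
      (m X (τ 0) s * m X (τ 1) s * (E X g (τ 0) (τ 1) - A X g (τ 1) s) *
        (if τ 0 = g then 1 else if s = τ 0 then 0 else psi X g (τ 0) (τ 1))) := by
    intro s
    have hJs : J g (update τ 4 s) = 1 := by rw [← hJ1]; simp [J]
    have hphi := phi_eq h (g := g) (update τ 4 s) (by simp [h3]) (by simp [h5'])
    simp only [Fg, h6, h5, hphi, hJs]
    simp [pp, wt, h2, h3]
    ring
  simp_rw [e]
  rw [← Finset.mul_sum]
  have hZ2 := (Z2_pos h (τ 0) (τ 1)).ne'
  have hE : ∑ s, m X (τ 0) s * m X (τ 1) s * (E X g (τ 0) (τ 1) - A X g (τ 1) s) = 0 := by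
    simp_rw [mul_sub, Finset.sum_sub_distrib]
    rw [← Finset.sum_mul]
    change Z2 X (τ 0) (τ 1) * E X g (τ 0) (τ 1) - _ = 0
    rw [E]
    field_simp
    ring
  by_cases h0 : τ 0 = g
  · rw [if_pos (Or.inr h0)]
    have e2 : ∀ s, m X (τ 0) s * m X (τ 1) s * (E X g (τ 0) (τ 1) - A X g (τ 1) s) *
        (if τ 0 = g then 1 else if s = τ 0 then 0 else psi X g (τ 0) (τ 1)) =
        m X (τ 0) s * m X (τ 1) s * (E X g (τ 0) (τ 1) - A X g (τ 1) s) := by
      intro s
      rw [if_pos h0, mul_one]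
    simp_rw [e2]
    rw [hE, mul_zero]
  · rw [if_neg (by tauto)]
    have e2 : ∀ s, m X (τ 0) s * m X (τ 1) s * (E X g (τ 0) (τ 1) - A X g (τ 1) s) *
        (if τ 0 = g then 1 else if s = τ 0 then 0 else psi X g (τ 0) (τ 1)) =
        psi X g (τ 0) (τ 1) *
          (m X (τ 0) s * m X (τ 1) s * (E X g (τ 0) (τ 1) - A X g (τ 1) s)) -
        (if s = τ 0 then psi X g (τ 0) (τ 1) *
          (m X (τ 0) s * m X (τ 1) s * (E X g (τ 0) (τ 1) - A X g (τ 1) s)) else 0) := by
      intro s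
      rw [if_neg h0]
      by_cases hs : s = τ 0
      · rw [if_pos hs, if_pos hs]; ring
      · rw [if_neg hs, if_neg hs]; ring
    simp_rw [e2]
    rw [Finset.sum_sub_distrib, ← Finset.mul_sum, hE, Finset.sum_ite_eq',
      if_pos (Finset.mem_univ _), m_self, m_ne h0, m_comm (τ 1) (τ 0)]
    ring

theorem outer_sum (σ : Fin 6 → Fin q) : ∑ t, ∑ s, Fg X g (update (update σ 1 t) 4 s) =
    if J g σ = 0 ∨ σ 0 = g then 0 else c1 X g * (X ^ 2 / Zp q X) * T X g (σ 0) := by
  simp_rw [inner_sum h]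
  have hJ : ∀ t, J g (update σ 1 t) = J g σ := by intro t; simp [J]
  have h0 : ∀ t, (update σ 1 t) 0 = σ 0 := by intro t; simp
  simp only [hJ, h0, Function.update_self]
  by_cases hc : J g σ = 0 ∨ σ 0 = g
  · simp only [if_pos hc, Finset.sum_const_zero]
  · simp only [if_neg hc]
    rw [← Finset.mul_sum, T]

theorem total_pos : 0 < ∑ σ : Fin 6 → Fin q, Fg X g σ := by
  have hq := h.Q3
  have hX := h.Xpos
  have h1 := sum_fiber (4 : Fin 6) (fun σ : Fin 6 → Fin q => Fg X g σ)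
  have h2 := sum_fiber (1 : Fin 6) (fun σ : Fin 6 → Fin q => ∑ s, Fg X g (update σ 4 s))
  simp only [Fintype.card_fin] at h1 h2
  have h3 : ∑ σ : Fin 6 → Fin q, ∑ t, ∑ s, Fg X g (update (update σ 1 t) 4 s) =
      (q : ℝ) * (q * ∑ σ : Fin 6 → Fin q, Fg X g σ) := by
    rw [← h1]; exact h2
  have hpos : 0 < c1 X g * (X ^ 2 / Zp q X) :=
    mul_pos (c1_pos h) (div_pos (by positivity) (Zp_pos h))
  have h4 : 0 < ∑ σ : Fin 6 → Fin q, ∑ t, ∑ s, Fg X g (update (update σ 1 t) 4 s) := by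
    simp_rw [outer_sum h]
    obtain ⟨k, hk⟩ : ∃ k : Fin q, k ≠ g := by
      have : Nontrivial (Fin q) := Fin.nontrivial_iff_two_le.mpr (by have := h.hq; omega)
      exact exists_ne g
    refine Finset.sum_pos' (fun σ _ => ?_) ⟨update (fun _ => g) 0 k, Finset.mem_univ _, ?_⟩
    · split_ifs with hc
      · exact le_rfl
      · exact (mul_pos hpos (T_pos h (fun h0 => hc (Or.inr h0)))).le
    · have hJ : J g (update (fun _ => g) 0 k) = 1 := by simp [J, ig_self]
      have h0 : (update (fun _ : Fin 6 => g) 0 k) 0 = k := by simp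
      rw [if_neg]
      · rw [h0]; exact mul_pos hpos (T_pos h hk)
      · rw [hJ, h0]
        push Not
        exact ⟨one_ne_zero, hk⟩
  rw [h3] at h4
  have hq0 : (0 : ℝ) < q := by linarith
  exact pos_of_mul_pos_right (pos_of_mul_pos_right h4 hq0.le) hq0.le

theorem evt_sum (F : (Fin 6 → Fin q) → ℝ) :
    ∑ σ ∈ evt g, pop (pp q X) 1 (pop (pp q X) 2 F) σ * pp q X σ =
      ∑ σ, pp q X σ * (F σ * phi X g σ) := by
  rw [sum_evt]
  have e : ∀ σ, pop (pp q X) 1 (pop (pp q X) 2 F) σ * pp q X σ * ind g σ =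
      pp q X σ * (pop (pp q X) 1 (pop (pp q X) 2 F) σ * ind g σ) := fun σ => by ring
  rw [Finset.sum_congr rfl fun σ _ => e σ, pop_adjoint,
    pop_of_indep (pp_pos h) 1 (ind g) (ind_indep h), pop_adjoint]
  rfl

/-- The extra update increases the probability of the event. -/
theorem evt_lt : ∑ σ ∈ evt g, law Gr (Real.log X) g [4, 1, 0, 4, 0, 2, 1] σ <
    ∑ σ ∈ evt g, law Gr (Real.log X) g [4, 1, 0, 4, 0, 4, 2, 1] σ := by
  rw [law_short' h, law_long h]
  have h1 := evt_sum h (g := g) (h5 X g)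
  have h2 := evt_sum h (g := g) (h6 X g)
  simp only [] at h1 h2 ⊢
  rw [h1, h2, ← sub_pos, ← Finset.sum_sub_distrib]
  have h3 := total_pos h (g := g)
  refine lt_of_lt_of_eq h3 ?_
  refine Finset.sum_congr rfl fun σ _ => ?_
  unfold Fg
  ring

theorem law_mass (v : List (Fin 6)) : ∑ σ, law Gr (Real.log X) g v σ = 1 := by
  have hp : potts (q := q) Gr (Real.log X) = pp q X := potts_eq h.Xpos
  have key : ∀ (v : List (Fin 6)) (μ : (Fin 6 → Fin q) → ℝ),
      ∑ σ, v.foldl (fun μ x => upd (potts Gr (Real.log X)) x μ) μ σ = ∑ σ, μ σ := by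
    intro v
    induction v with
    | nil => intro μ; rfl
    | cons x v ih =>
      intro μ
      rw [List.foldl_cons, ih, hp, upd_mass (pp_pos h)]
  unfold law
  rw [key]
  simp

/-- Censoring the sixth update of the sequence `4, 1, 0, 4, 0, 4, 2, 1` brings the dynamics
strictly closer to equilibrium. -/
theorem tv_censored_lt :
    tv (law Gr (Real.log X) g [4, 1, 0, 4, 0, 2, 1]) (potts Gr (Real.log X)) <
      tv (law Gr (Real.log X) g [4, 1, 0, 4, 0, 4, 2, 1]) (potts Gr (Real.log X)) := by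
  have hp : potts (q := q) Gr (Real.log X) = pp q X := potts_eq h.Xpos
  refine tv_lt ?_ (evt g) (fun σ hσ => ?_) (fun σ hσ => ?_) (evt_lt h)
  · rw [law_mass h, hp, pp_sum h]
  · rw [law_short h, hp]
    exact le_mul_of_one_le_left (pp_pos h σ).le (dens_ge h σ hσ)
  · rw [law_short h, hp]
    exact mul_le_of_le_one_left (pp_pos h σ).le (dens_le h σ hσ)

end Pool.Agent.H857R3.Potts
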